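import Pool.Agent.Helper83.CB.Defs

/-! # Basic facts on norms on `ℂ^m` -/

open Filter Topology

namespace Pool.Agent.Helper83.CB

theorem BAS_zero {V : Type*} [AddCommGroup V] [Module ℂ V] {N : V → ℝ} (hN : IsNorm N) :
    N 0 = 0 := by
  have := hN.smul 0 (0 : V)
  rw [zero_smul, norm_zero, zero_mul] at this
  exact this

theorem BAS_neg {V : Type*} [AddCommGroup V] [Module ℂ V] {N : V → ℝ} (hN : IsNorm N) (x : V) :
    N (-x) = N x := by
  have := hN.smul (-1) x
  rw [neg_one_smul, norm_neg, norm_one, one_mul] at this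
  exact this

theorem BAS_nonneg {V : Type*} [AddCommGroup V] [Module ℂ V] {N : V → ℝ} (hN : IsNorm N) (x : V) :
    0 ≤ N x := by
  by_cases h : x = 0
  · rw [h, BAS_zero hN]
  · exact (hN.pos x h).le

theorem BAS_eq_zero {V : Type*} [AddCommGroup V] [Module ℂ V] {N : V → ℝ} (hN : IsNorm N) {x : V}
    (h : N x = 0) : x = 0 := by
  by_contra hx
  exact absurd h (hN.pos x hx).ne'

theorem BAS_sum {V : Type*} [AddCommGroup V] [Module ℂ V] {N : V → ℝ} (hN : IsNorm N) {ι : Type*}
    (s : Finset ι) (x : ι → V) : N (∑ i ∈ s, x i) ≤ ∑ i ∈ s, N (x i) := by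
  classical
  induction s using Finset.induction_on with
  | empty => simp [BAS_zero hN]
  | insert i s hi ih =>
    rw [Finset.sum_insert hi, Finset.sum_insert hi]
    exact (hN.add _ _).trans (by linarith)

theorem BAS_upper {m : ℕ} {N : E m → ℝ} (hN : IsNorm N) : ∃ C : ℝ, 0 ≤ C ∧ ∀ x, N x ≤ C * ‖x‖ := by
  refine ⟨∑ i, N (EuclideanSpace.single i 1), Finset.sum_nonneg fun i _ => BAS_nonneg hN _,
    fun x => ?_⟩
  have h1 : x = ∑ i, x i • (EuclideanSpace.single i 1 : E m) := by
    ext j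
    simp [Pi.single_apply]
  calc N x = N (∑ i, x i • (EuclideanSpace.single i 1 : E m)) := by rw [← h1]
    _ ≤ ∑ i, N (x i • (EuclideanSpace.single i 1 : E m)) := BAS_sum hN _ _
    _ ≤ ∑ i, N (EuclideanSpace.single i 1 : E m) * ‖x‖ := by
      refine Finset.sum_le_sum fun i _ => ?_
      rw [hN.smul, mul_comm]
      exact mul_le_mul_of_nonneg_left (PiLp.norm_apply_le x i) (BAS_nonneg hN _)
    _ = _ := by rw [Finset.sum_mul]

theorem BAS_cont {m : ℕ} {N : E m → ℝ} (hN : IsNorm N) : Continuous N := by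
  obtain ⟨C, hC0, hC⟩ := BAS_upper hN
  have h1 : ∀ x y, |N x - N y| ≤ C * ‖x - y‖ := by
    intro x y
    rw [abs_le]
    constructor
    · have h2 := hN.add x (y - x)
      have h3 : N (y - x) = N (x - y) := by rw [← BAS_neg hN (x - y), neg_sub]
      rw [add_sub_cancel] at h2
      have := hC (x - y)
      linarith
    · have h2 := hN.add y (x - y)
      rw [add_sub_cancel] at h2
      have := hC (x - y)
      linarith
  have h2 : LipschitzWith ⟨C, hC0⟩ N := by
    refine LipschitzWith.of_dist_le_mul fun x y => ?_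
    rw [Real.dist_eq, dist_eq_norm]
    exact h1 x y
  exact h2.continuous

theorem BAS_lower {m : ℕ} {N : E m → ℝ} (hN : IsNorm N) : ∃ c : ℝ, 0 < c ∧ ∀ x, c * ‖x‖ ≤ N x := by
  by_cases hne : (Metric.sphere (0 : E m) 1).Nonempty
  · obtain ⟨x0, hx0, hmin⟩ := (isCompact_sphere (0 : E m) 1).exists_isMinOn hne
      (BAS_cont hN).continuousOn
    have hx0n : ‖x0‖ = 1 := by simpa using hx0
    have hpos : 0 < N x0 := hN.pos x0 (by rintro rfl; simp at hx0n)
    refine ⟨N x0, hpos, fun x => ?_⟩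
    by_cases hx : x = 0
    · rw [hx, norm_zero, mul_zero]
      exact BAS_nonneg hN _
    · have hxn : 0 < ‖x‖ := norm_pos_iff.mpr hx
      have h1 : N x0 ≤ N (((‖x‖ : ℂ)⁻¹) • x) := by
        refine hmin (show ((‖x‖ : ℂ)⁻¹) • x ∈ Metric.sphere (0 : E m) 1 from ?_)
        rw [mem_sphere_zero_iff_norm, norm_smul, norm_inv, Complex.norm_real, norm_norm]
        field_simp
      rw [hN.smul, norm_inv, Complex.norm_real, norm_norm] at h1
      rw [inv_mul_eq_div, le_div_iff₀ hxn] at h1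
      exact h1
  · refine ⟨1, one_pos, fun x => ?_⟩
    have hx : x = 0 := by
      by_contra hx
      apply hne
      refine ⟨((‖x‖ : ℂ)⁻¹) • x, ?_⟩
      have hxn : 0 < ‖x‖ := norm_pos_iff.mpr hx
      rw [mem_sphere_zero_iff_norm, norm_smul, norm_inv, Complex.norm_real, norm_norm]
      field_simp
    rw [hx, norm_zero, mul_zero]
    exact BAS_nonneg hN _

theorem BAS_isNorm_norm (m : ℕ) : IsNorm (fun x : E m => ‖x‖) :=
  ⟨fun x hx => norm_pos_iff.mpr hx, fun c x => norm_smul c x, fun x y => norm_add_le x y⟩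

theorem BAS_inj {n m : ℕ} {N0 : E n → ℝ} {N : E m → ℝ} (hN0 : IsNorm N0) (hN : IsNorm N)
    {L : E n →L[ℂ] E m} (hL : L ∈ PP N0 N) : Function.Injective L := by
  rw [injective_iff_map_eq_zero]
  intro z hz
  apply BAS_eq_zero hN0
  rw [← hL z, hz, BAS_zero hN]

theorem BAS_compact {n m : ℕ} {N0 : E n → ℝ} {N : E m → ℝ} (hN0 : IsNorm N0) (hN : IsNorm N) :
    IsCompact (PP N0 N) := by
  have hclosed : IsClosed (PP N0 N) := by
    have h1 : PP N0 N = ⋂ z : E n, {L : E n →L[ℂ] E m | N (L z) = N0 z} := by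
      ext L
      simp [PP]
    rw [h1]
    refine isClosed_iInter fun z => ?_
    exact isClosed_eq ((BAS_cont hN).comp (ContinuousLinearMap.apply ℂ (E m) z).continuous)
      continuous_const
  obtain ⟨c, hc, hcN⟩ := BAS_lower hN
  obtain ⟨C, hC, hCN⟩ := BAS_upper hN0
  refine Metric.isCompact_of_isClosed_isBounded hclosed ?_
  refine (Metric.isBounded_iff_subset_closedBall 0).mpr ⟨C / c, fun L hL => ?_⟩
  rw [mem_closedBall_zero_iff]
  refine ContinuousLinearMap.opNorm_le_bound _ (by positivity) fun z => ?_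
  have h1 := hcN (L z)
  rw [hL z] at h1
  have h2 := hCN z
  rw [div_mul_eq_mul_div, le_div_iff₀ hc]
  linarith

theorem BAS_param {n : ℕ} (W : Submodule ℂ (E n)) :
    ∃ S : E (Module.finrank ℂ W) →L[ℂ] E n, Function.Injective S ∧ rg S = W := by
  have e : E (Module.finrank ℂ W) ≃ₗ[ℂ] W := LinearEquiv.ofFinrankEq _ _ (by simp)
  refine ⟨LinearMap.toContinuousLinearMap (W.subtype ∘ₗ e.toLinearMap), ?_, ?_⟩
  · intro x y hxy
    exact e.injective (Subtype.ext hxy)
  · unfold rg
    rw [LinearMap.coe_toContinuousLinearMap, LinearMap.range_comp, LinearEquiv.range,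
      Submodule.map_top, Submodule.range_subtype]

theorem BAS_param' {n : ℕ} (W : Submodule ℂ (E n)) :
    ∃ (d : ℕ) (S : E d →L[ℂ] E n), Function.Injective S ∧ rg S = W ∧ d = Module.finrank ℂ W := by
  obtain ⟨S, hS, hW⟩ := BAS_param W
  exact ⟨_, S, hS, hW, rfl⟩

theorem BAS_param_isom {n : ℕ} (W : Submodule ℂ (E n)) :
    ∃ S : E (Module.finrank ℂ W) →L[ℂ] E n, (∀ z, ‖S z‖ = ‖z‖) ∧ rg S = W := by
  let e : W ≃ₗᵢ[ℂ] E (Module.finrank ℂ W) := (stdOrthonormalBasis ℂ W).repr
  refine ⟨LinearMap.toContinuousLinearMap (W.subtype ∘ₗ e.symm.toLinearEquiv.toLinearMap), ?_, ?_⟩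
  · intro z
    change ‖(e.symm z : W)‖ = ‖z‖
    exact e.symm.norm_map z
  · unfold rg
    rw [LinearMap.coe_toContinuousLinearMap, LinearMap.range_comp, LinearEquiv.range,
      Submodule.map_top, Submodule.range_subtype]

theorem BAS_finrank_rg {n m : ℕ} {L : E n →L[ℂ] E m} (hL : Function.Injective L) :
    Module.finrank ℂ (rg L) = n := by
  have h1 : Module.finrank ℂ (LinearMap.range L.toLinearMap) = Module.finrank ℂ (E n) :=
    LinearMap.finrank_range_of_inj hL
  unfold rg
  rw [h1]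
  simp

theorem BAS_finrank_kr {m : ℕ} {f : E (m + 1) →L[ℂ] ℂ} (hf : f ≠ 0) :
    Module.finrank ℂ (kr f) = m := by
  have h1 := LinearMap.finrank_range_add_finrank_ker f.toLinearMap
  have h2 : LinearMap.range f.toLinearMap = ⊤ := by
    rw [LinearMap.range_eq_top]
    refine LinearMap.surjective fun h => hf ?_
    ext x
    exact LinearMap.congr_fun h x
  rw [h2, finrank_top] at h1
  simp only [Module.finrank_self, finrank_euclideanSpace, Fintype.card_fin] at h1
  unfold kr
  omega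

end Pool.Agent.Helper83.CB
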