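import Pool.Agent.Helper27.CB.BAS

/-! # CONV: elementary facts on `SubConv` -/

open Filter Topology

namespace Pool.Agent.Helper83.CB

theorem CONV_apply {n m : ℕ} {T : ℕ → E n →L[ℂ] E m} {T0 : E n →L[ℂ] E m}
    (hT : Tendsto T atTop (𝓝 T0)) (z : E n) : Tendsto (fun j => T j z) atTop (𝓝 (T0 z)) :=
  ((ContinuousLinearMap.apply ℂ (E m) z).continuous.tendsto T0).comp hT

/-- uniform lower bound -/
theorem CONV_lower {n m : ℕ} {T : ℕ → E n →L[ℂ] E m} {T0 : E n →L[ℂ] E m}
    (hT : Tendsto T atTop (𝓝 T0)) (h0 : Function.Injective T0) :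
    ∃ (c : ℝ) (J : ℕ), 0 < c ∧ ∀ j, J ≤ j → ∀ z, c * ‖z‖ ≤ ‖T j z‖ := by
  have hN : IsNorm (fun z : E n => ‖T0 z‖) := by
    refine ⟨fun x hx => norm_pos_iff.mpr fun h => hx (h0 (by rw [h, map_zero])), fun c x => ?_,
      fun x y => ?_⟩
    · change ‖T0 (c • x)‖ = _
      rw [map_smul, norm_smul]
    · rw [map_add]
      exact norm_add_le _ _
  obtain ⟨c, hc, hcT⟩ := BAS_lower hN
  rw [Metric.tendsto_atTop] at hT
  obtain ⟨J, hJ⟩ := hT (c / 2) (by linarith)
  refine ⟨c / 2, J, by linarith, fun j hj z => ?_⟩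
  have h1 : ‖T j - T0‖ < c / 2 := by
    rw [← dist_eq_norm]
    exact hJ j hj
  have h2 : ‖(T j - T0) z‖ ≤ c / 2 * ‖z‖ :=
    ((T j - T0).le_opNorm z).trans (mul_le_mul_of_nonneg_right h1.le (norm_nonneg z))
  have h3 : ‖T0 z‖ ≤ ‖T j z‖ + ‖(T j - T0) z‖ := by
    have h4 : T0 z = T j z - (T j - T0) z := by
      simp
    rw [h4]
    exact norm_sub_le _ _
  have h5 := hcT z
  have h6 : c * ‖z‖ ≤ ‖T0 z‖ := h5
  linarith

theorem CONV_im {n m : ℕ} (L : ℕ → E n →L[ℂ] E m) (L0 : E n →L[ℂ] E m) (W : Submodule ℂ (E n))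
    (hL : ∀ j, Function.Injective (L j)) (hL0 : Function.Injective L0)
    (h : Tendsto L atTop (𝓝 L0)) : SubConv (fun j => im (L j) W) (im L0 W) := by
  obtain ⟨d, S, hS, hSW, -⟩ := BAS_param' W
  have hrg : ∀ M : E n →L[ℂ] E m, rg (M.comp S) = im M W := by
    intro M
    rw [← hSW]
    ext x
    constructor
    · rintro ⟨z, rfl⟩
      exact ⟨S z, ⟨z, rfl⟩, rfl⟩
    · rintro ⟨_, ⟨z, rfl⟩, rfl⟩
      exact ⟨z, rfl⟩
  refine ⟨_, fun j => (L j).comp S, L0.comp S, fun j => ⟨(hL j).comp hS, hrg _⟩, hL0.comp hS,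
    hrg _, ?_⟩
  have h2 : Continuous fun M : E n →L[ℂ] E m => M.comp S := by fun_prop
  exact (h2.tendsto L0).comp h

theorem CONV_ker {m : ℕ} (A : ℕ → Submodule ℂ (E m)) (A0 : Submodule ℂ (E m))
    (hA : SubConv A A0) (f : ℕ → E m →L[ℂ] ℂ) (f0 : E m →L[ℂ] ℂ)
    (hf : Tendsto f atTop (𝓝 f0)) (hne : ¬ A0 ≤ kr f0) :
    ∃ J, SubConv (fun j => A (j + J) ⊓ kr (f (j + J))) (A0 ⊓ kr f0) := by
  obtain ⟨d, T, T0, hT, hT0, hTA, hlim⟩ := hA
  -- functionals on `E d`
  have hg : Tendsto (fun j => (f j).comp (T j)) atTop (𝓝 (f0.comp T0)) := by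
    have h2 : Continuous fun p : (E m →L[ℂ] ℂ) × (E d →L[ℂ] E m) => p.1.comp p.2 := by fun_prop
    exact (h2.tendsto (f0, T0)).comp (hf.prodMk_nhds hlim)
  obtain ⟨e, he⟩ : ∃ e, f0 (T0 e) ≠ 0 := by
    by_contra hc
    push Not at hc
    apply hne
    rw [← hTA]
    rintro _ ⟨z, rfl⟩
    exact hc z
  have hge : Tendsto (fun j => f j (T j e)) atTop (𝓝 (f0 (T0 e))) :=
    ((ContinuousLinearMap.apply ℂ ℂ e).continuous.tendsto (f0.comp T0)).comp hg
  obtain ⟨J, hJ⟩ := eventually_atTop.mp (hge.eventually_ne he)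
  let K0 : Submodule ℂ (E d) := kr (f0.comp T0)
  obtain ⟨d', S, hS, hSW, hd'⟩ := BAS_param' K0
  have hSz : ∀ z, f0 (T0 (S z)) = 0 := by
    intro z
    have : S z ∈ K0 := by
      rw [← hSW]
      exact ⟨z, rfl⟩
    exact this
  -- the projections
  let P : ℕ → E d →L[ℂ] E d := fun j => ContinuousLinearMap.id ℂ (E d) -
    ((f j (T j e))⁻¹ • ((f j).comp (T j))).smulRight e
  let P0 : E d →L[ℂ] E d := ContinuousLinearMap.id ℂ (E d) -
    ((f0 (T0 e))⁻¹ • (f0.comp T0)).smulRight e
  have hPz : ∀ j z, P j z = z - ((f j (T j e))⁻¹ * f j (T j z)) • e := fun j z => rfl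
  have hP0z : ∀ z, P0 z = z - ((f0 (T0 e))⁻¹ * f0 (T0 z)) • e := fun z => rfl
  have hPlim : Tendsto P atTop (𝓝 P0) := by
    have h1 : Tendsto (fun j => (f j (T j e))⁻¹) atTop (𝓝 (f0 (T0 e))⁻¹) := hge.inv₀ he
    have h2 : Tendsto (fun j => (f j (T j e))⁻¹ • ((f j).comp (T j))) atTop
        (𝓝 ((f0 (T0 e))⁻¹ • (f0.comp T0))) := h1.smul hg
    have h3 : Continuous fun g : E d →L[ℂ] ℂ => ContinuousLinearMap.id ℂ (E d) -
        g.smulRight e := by fun_prop
    exact (h3.tendsto _).comp h2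
  have hcompl : ∀ j, J ≤ j → Function.Injective ((T j).comp ((P j).comp S)) ∧
      rg ((T j).comp ((P j).comp S)) = A j ⊓ kr (f j) := by
    intro j hj
    have hj0 := hJ j hj
    have hker : ∀ z, f j (T j (P j z)) = 0 := by
      intro z
      rw [hPz, map_sub, map_smul, map_sub, map_smul, smul_eq_mul]
      field_simp
      ring
    have hinj : Function.Injective ((P j).comp S) := by
      rw [injective_iff_map_eq_zero]
      intro z hz
      have h1 : S z = ((f j (T j e))⁻¹ * f j (T j (S z))) • e := by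
        have h2 := hPz j (S z)
        have h3 : P j (S z) = 0 := hz
        rw [h3] at h2
        exact (sub_eq_zero.mp h2.symm)
      have h4 := hSz z
      rw [h1, map_smul, map_smul, smul_eq_mul] at h4
      rcases mul_eq_zero.mp h4 with h5 | h5
      · rw [h5, zero_smul] at h1
        exact hS (by rw [h1, map_zero])
      · exact absurd h5 he
    refine ⟨(hT j).1.comp hinj, ?_⟩
    have hinjT : Function.Injective ((T j).comp ((P j).comp S)) := (hT j).1.comp hinj
    refine Submodule.eq_of_le_of_finrank_le ?_ ?_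
    · rintro _ ⟨z, rfl⟩
      refine ⟨?_, hker (S z)⟩
      rw [← (hT j).2]
      exact ⟨P j (S z), rfl⟩
    · rw [BAS_finrank_rg hinjT, hd']
      -- `finrank (A j ⊓ kr (f j)) ≤ finrank K0`
      have h1 : A j ⊓ kr (f j) = im (T j) (kr ((f j).comp (T j))) := by
        rw [← (hT j).2]
        ext x
        constructor
        · rintro ⟨⟨z, rfl⟩, hz⟩
          exact ⟨z, hz, rfl⟩
        · rintro ⟨z, hz, rfl⟩
          exact ⟨⟨z, rfl⟩, hz⟩
      rw [h1]
      refine (Submodule.finrank_map_le _ _).trans ?_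
      have h2 := LinearMap.finrank_range_add_finrank_ker ((f j).comp (T j)).toLinearMap
      have h3 := LinearMap.finrank_range_add_finrank_ker (f0.comp T0).toLinearMap
      have h4 : LinearMap.range ((f j).comp (T j)).toLinearMap = ⊤ := by
        rw [LinearMap.range_eq_top]
        refine LinearMap.surjective fun h => hj0 ?_
        exact LinearMap.congr_fun h e
      have h5 : LinearMap.range (f0.comp T0).toLinearMap = ⊤ := by
        rw [LinearMap.range_eq_top]
        refine LinearMap.surjective fun h => he ?_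
        exact LinearMap.congr_fun h e
      rw [h4] at h2
      rw [h5] at h3
      change Module.finrank ℂ (LinearMap.ker ((f j).comp (T j)).toLinearMap) ≤
        Module.finrank ℂ (LinearMap.ker (f0.comp T0).toLinearMap)
      omega
  have hP0S : (T0.comp (P0.comp S)) = T0.comp S := by
    ext1 z
    change T0 (P0 (S z)) = T0 (S z)
    rw [hP0z, hSz, mul_zero, zero_smul, sub_zero]
  refine ⟨J, _, fun j => (T (j + J)).comp ((P (j + J)).comp S), T0.comp S,
    fun j => hcompl (j + J) (Nat.le_add_left _ _), hT0.comp hS, ?_, ?_⟩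
  · ext x
    constructor
    · rintro ⟨z, rfl⟩
      refine ⟨?_, hSz z⟩
      rw [← hTA]
      exact ⟨S z, rfl⟩
    · rintro ⟨hx1, hx2⟩
      rw [← hTA] at hx1
      obtain ⟨w, rfl⟩ := hx1
      have hw : w ∈ K0 := hx2
      rw [← hSW] at hw
      obtain ⟨z, rfl⟩ := hw
      exact ⟨z, rfl⟩
  · rw [← hP0S]
    have h1 : Continuous fun p : (E d →L[ℂ] E m) × (E d →L[ℂ] E d) => p.1.comp (p.2.comp S) := by
      fun_prop
    have h2 := (h1.tendsto (T0, P0)).comp (hlim.prodMk_nhds hPlim)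
    exact h2.comp (tendsto_add_atTop_nat J)

theorem st_CONV : ST_CONV := by
  classical
  intro m
  refine ⟨?_, ?_, fun n L L0 W hL hL0 h => CONV_im L L0 W hL hL0 h⟩
  · intro d A hA
    have hch : ∀ j, ∃ S : E d →L[ℂ] E m, (∀ z, ‖S z‖ = ‖z‖) ∧ rg S = A j := by
      intro j
      have h1 := BAS_param_isom (A j)
      rw [hA j] at h1
      exact h1
    choose S hS hSA using hch
    have hcomp : IsCompact (PP (fun x : E d => ‖x‖) (fun x : E m => ‖x‖)) :=
      BAS_compact (BAS_isNorm_norm d) (BAS_isNorm_norm m)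
    obtain ⟨S0, hS0, φ, hφ, hlim⟩ := hcomp.tendsto_subseq (x := S) hS
    refine ⟨φ, hφ, rg S0, d, fun j => S (φ j), S0, fun j => ⟨?_, hSA _⟩, ?_, rfl, hlim⟩
    · exact BAS_inj (BAS_isNorm_norm d) (BAS_isNorm_norm m) (hS (φ j))
    · exact BAS_inj (BAS_isNorm_norm d) (BAS_isNorm_norm m) hS0
  · intro A A0 hA
    refine ⟨?_, ?_, ?_, ?_, ?_⟩
    · intro j
      obtain ⟨d, T, T0, hT, hT0, hTA, hlim⟩ := hA
      rw [← (hT j).2, ← hTA, BAS_finrank_rg (hT j).1, BAS_finrank_rg hT0]
    · intro φ hφ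
      obtain ⟨d, T, T0, hT, hT0, hTA, hlim⟩ := hA
      exact ⟨d, fun j => T (φ j), T0, fun j => hT (φ j), hT0, hTA, hlim.comp hφ.tendsto_atTop⟩
    · intro x hx
      obtain ⟨d, T, T0, hT, hT0, hTA, hlim⟩ := hA
      rw [← hTA] at hx
      obtain ⟨z, rfl⟩ := hx
      refine ⟨fun j => T j z, fun j => ?_, CONV_apply hlim z⟩
      rw [← (hT j).2]
      exact ⟨z, rfl⟩
    · intro y x hy hyx
      obtain ⟨d, T, T0, hT, hT0, hTA, hlim⟩ := hA
      obtain ⟨c, J, hc, hcT⟩ := CONV_lower hlim hT0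
      have hz : ∀ j, ∃ z, T j z = y j := by
        intro j
        have := hy j
        rw [← (hT j).2] at this
        exact this
      choose z hz using hz
      have hclosed : IsClosed (A0 : Set (E m)) := Submodule.closed_of_finiteDimensional A0
      have hlim2 : Tendsto (fun j => T0 (z j)) atTop (𝓝 x) := by
        have h1 : Tendsto (fun j => T0 (z j) - y j) atTop (𝓝 0) := by
          rw [tendsto_zero_iff_norm_tendsto_zero]
          have hb : ∀ᶠ j in atTop, ‖T0 (z j) - y j‖ ≤ ‖T j - T0‖ * ((‖x‖ + 1) / c) := by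
            have hy1 : ∀ᶠ j in atTop, ‖y j‖ < ‖x‖ + 1 :=
              (hyx.norm).eventually (gt_mem_nhds (by linarith))
            filter_upwards [hy1, eventually_ge_atTop J] with j hj1 hj2
            have h2 : ‖z j‖ ≤ (‖x‖ + 1) / c := by
              rw [le_div_iff₀ hc]
              have := hcT j hj2 (z j)
              rw [hz] at this
              linarith
            have h3 : T0 (z j) - y j = -((T j - T0) (z j)) := by
              rw [← hz j]
              simp
            rw [h3, norm_neg]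
            exact ((T j - T0).le_opNorm (z j)).trans
              (mul_le_mul_of_nonneg_left h2 (norm_nonneg _))
          have h4 : Tendsto (fun j => ‖T j - T0‖ * ((‖x‖ + 1) / c)) atTop (𝓝 0) := by
            have h5 : Tendsto (fun j => ‖T j - T0‖) atTop (𝓝 0) := by
              have := (hlim.sub_const T0).norm
              rwa [sub_self, norm_zero] at this
            have h6 := h5.mul_const ((‖x‖ + 1) / c)
            rwa [zero_mul] at h6
          exact squeeze_zero' (Eventually.of_forall fun j => norm_nonneg _) hb h4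
        have h7 := h1.add hyx
        simp only [sub_add_cancel, zero_add] at h7
        exact h7
      refine hclosed.mem_of_tendsto hlim2 (Eventually.of_forall fun j => ?_)
      change T0 (z j) ∈ A0
      rw [← hTA]
      exact ⟨z j, rfl⟩
    · exact fun f f0 hf hne => CONV_ker A A0 hA f f0 hf hne

end Pool.Agent.Helper83.CB
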