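import Pool.Agent.Helper27.CB.BAS

/-! # LIFT -/

open Filter Topology

namespace Pool.Agent.Helper83.CB

theorem LIFT_seq {X : Type*} [PseudoMetricSpace X] (S : ℕ → Set X) (x0 : X)
    (h : ∀ ε > 0, ∃ J, ∀ j, J ≤ j → ∃ x ∈ S j, dist x x0 < ε) :
    ∃ (J : ℕ) (x : ℕ → X), Tendsto x atTop (𝓝 x0) ∧ ∀ j, J ≤ j → x j ∈ S j := by
  classical
  obtain ⟨J, hJ⟩ := h 1 one_pos
  have hne : ∀ j, J ≤ j → (S j).Nonempty := fun j hj => by
    obtain ⟨x, hx, -⟩ := hJ j hj
    exact ⟨x, hx⟩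
  have hch : ∀ j, J ≤ j → ∃ x ∈ S j, dist x0 x < Metric.infDist x0 (S j) + 1 / ((j : ℝ) + 1) := by
    intro j hj
    exact (Metric.infDist_lt_iff (hne j hj)).mp (by
      have : (0 : ℝ) < 1 / ((j : ℝ) + 1) := by positivity
      linarith)
  have hX : Nonempty X := ⟨x0⟩
  choose! x hx hxd using hch
  refine ⟨J, x, ?_, hx⟩
  rw [Metric.tendsto_atTop]
  intro ε hε
  obtain ⟨J1, hJ1⟩ := h (ε / 2) (by linarith)
  obtain ⟨J2, hJ2⟩ := exists_nat_one_div_lt (show (0 : ℝ) < ε / 2 by linarith)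
  refine ⟨max J (max J1 J2), fun j hj => ?_⟩
  have h1 : J ≤ j := (le_max_left _ _).trans hj
  have h2 : J1 ≤ j := ((le_max_left _ _).trans (le_max_right _ _)).trans hj
  have h3 : J2 ≤ j := ((le_max_right _ _).trans (le_max_right _ _)).trans hj
  obtain ⟨y, hy, hyd⟩ := hJ1 j h2
  have h4 : Metric.infDist x0 (S j) ≤ dist x0 y := Metric.infDist_le_dist_of_mem hy
  have h5 := hxd j h1
  have h6 : 1 / ((j : ℝ) + 1) ≤ 1 / ((J2 : ℝ) + 1) := by
    have : (J2 : ℝ) ≤ j := by exact_mod_cast h3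
    gcongr
  rw [dist_comm] at hyd
  rw [dist_comm]
  linarith

theorem st_LIFT : ST_LIFT := by
  classical
  intro n N0 N hS
  have hcomp : IsCompact (PP N0 N) := BAS_compact hS.norm0 hS.norm
  refine ⟨hcomp, ?_⟩
  intro L0 f f0 hL0 hr hf0 hf
  have hkey : ∀ ε > 0, ∃ J, ∀ j, J ≤ j → ∃ L ∈ {L | L ∈ PP N0 N ∧ rg L = kr (f j)},
      dist L L0 < ε := by
    intro ε hε
    by_contra hcon
    push Not at hcon
    -- a subsequence without nearby lifts
    have hfreq : ∃ᶠ j in atTop, ∀ L ∈ {L | L ∈ PP N0 N ∧ rg L = kr (f j)}, ε ≤ dist L L0 := by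
      rw [frequently_atTop]
      intro J
      obtain ⟨j, hj, h⟩ := hcon J
      exact ⟨j, hj, h⟩
    have hne : ∀ᶠ j in atTop, f j ≠ 0 := hf.eventually_ne hf0
    obtain ⟨φ, hφ, hφ2⟩ := extraction_of_frequently_atTop (hfreq.and_eventually hne)
    choose L' hL' hL'r using fun j => hS.hyp (f (φ j)) (hφ2 j).2
    obtain ⟨L1, hL1, ψ, hψ, hψ2⟩ := hcomp.tendsto_subseq hL'
    have hinj1 := BAS_inj hS.norm0 hS.norm hL1
    -- the limit has range `kr f0`
    have hle : rg L1 ≤ kr f0 := by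
      rintro _ ⟨z, rfl⟩
      change f0 (L1 z) = 0
      have h1 : Tendsto (fun j => f (φ (ψ j)) (L' (ψ j) z)) atTop (𝓝 (f0 (L1 z))) := by
        have h2 : Tendsto (fun j => f (φ (ψ j))) atTop (𝓝 f0) :=
          hf.comp (hφ.comp hψ).tendsto_atTop
        have h3 : Tendsto (fun j => L' (ψ j) z) atTop (𝓝 (L1 z)) :=
          ((ContinuousLinearMap.apply ℂ (E (n + 1)) z).continuous.tendsto L1).comp hψ2
        exact (isBoundedBilinearMap_apply.continuous.tendsto (f0, L1 z)).comp (h2.prodMk_nhds h3)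
      have h4 : ∀ j, f (φ (ψ j)) (L' (ψ j) z) = 0 := by
        intro j
        have : L' (ψ j) z ∈ rg (L' (ψ j)) := ⟨z, rfl⟩
        rw [hL'r] at this
        exact this
      simp only [h4] at h1
      exact tendsto_nhds_unique h1 tendsto_const_nhds
    have heq : rg L1 = rg L0 := by
      rw [hr]
      refine Submodule.eq_of_le_of_finrank_eq hle ?_
      rw [BAS_finrank_rg hinj1, BAS_finrank_kr hf0]
    -- the isometry
    let e1 : E n ≃ₗ[ℂ] LinearMap.range L1.toLinearMap :=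
      LinearEquiv.ofInjective L1.toLinearMap hinj1
    have hmem : ∀ z : E n, L0.toLinearMap z ∈ LinearMap.range L1.toLinearMap := by
      intro z
      have : L0 z ∈ rg L0 := ⟨z, rfl⟩
      rw [← heq] at this
      exact this
    let h : E n →ₗ[ℂ] E n := e1.symm.toLinearMap ∘ₗ (L0.toLinearMap.codRestrict _ hmem)
    have hh : ∀ z, L1 (h z) = L0 z := by
      intro z
      have h1 := e1.apply_symm_apply (L0.toLinearMap.codRestrict _ hmem z)
      exact congrArg Subtype.val h1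
    have hN0h : ∀ z, N0 (h z) = N0 z := by
      intro z
      rw [← hL1 (h z), hh, hL0 z]
    have hinjh : Function.Injective h := by
      intro x y hxy
      apply BAS_inj hS.norm0 hS.norm hL0
      rw [← hh, ← hh, hxy]
    have hsurj : Function.Surjective h := LinearMap.injective_iff_surjective.mp hinjh
    let hc : E n →L[ℂ] E n := LinearMap.toContinuousLinearMap h
    have hlim : Tendsto (fun j => (L' (ψ j)).comp hc) atTop (𝓝 L0) := by
      have h1 : L1.comp hc = L0 := by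
        ext1 z
        exact hh z
      rw [← h1]
      have h2 : Continuous fun L : E n →L[ℂ] E (n + 1) => L.comp hc := by fun_prop
      exact (h2.tendsto L1).comp hψ2
    rw [Metric.tendsto_atTop] at hlim
    obtain ⟨J, hJ⟩ := hlim ε hε
    have h5 := (hφ2 (ψ J)).1 ((L' (ψ J)).comp hc) ⟨fun z => ?_, ?_⟩
    · exact absurd (hJ J le_rfl) (not_lt.mpr h5)
    · change N (L' (ψ J) (h z)) = N0 z
      rw [hL' (ψ J) (h z), hN0h]
    · rw [← hL'r (ψ J)]
      ext x
      constructor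
      · rintro ⟨z, rfl⟩
        exact ⟨h z, rfl⟩
      · rintro ⟨z, rfl⟩
        obtain ⟨w, rfl⟩ := hsurj z
        exact ⟨w, rfl⟩
  obtain ⟨J, L, hL, hLS⟩ := LIFT_seq (fun j => {L | L ∈ PP N0 N ∧ rg L = kr (f j)}) L0 hkey
  exact ⟨J, L, hL, hLS⟩

end Pool.Agent.Helper83.CB
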