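import Pool.Agent.Helper83.CB.Defs4

set_option autoImplicit false

/-! # Localisation of the mean of a coefficient of a two-form -/

open Filter Topology MeasureTheory

namespace Pool.Agent.Helper83.CB

/-! ### a periodic bump function -/

/-- unnormalised bump -/
noncomputable def LOCAL_b0 (t : ℝ) : ℝ := expNegInvGlue (-1 / 2 - Real.cos (2 * Real.pi * t))

theorem LOCAL_b0_smooth : ContDiff ℝ (⊤ : ℕ∞) LOCAL_b0 := by
  unfold LOCAL_b0
  exact expNegInvGlue.contDiff.comp (contDiff_const.sub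
    (Real.contDiff_cos.comp (contDiff_const.mul contDiff_id)))

theorem LOCAL_b0_per (t : ℝ) : LOCAL_b0 (t + 1) = LOCAL_b0 t := by
  unfold LOCAL_b0
  rw [show 2 * Real.pi * (t + 1) = 2 * Real.pi * t + 2 * Real.pi by ring, Real.cos_add_two_pi]

theorem LOCAL_cos (s : ℝ) (h0 : 0 ≤ s) (h1 : s ≤ 1 / 3) : -1 / 2 ≤ Real.cos (2 * Real.pi * s) := by
  have hpi := Real.pi_pos
  have h2 : Real.cos (2 * Real.pi / 3) = -1 / 2 := by
    rw [show 2 * Real.pi / 3 = Real.pi - Real.pi / 3 by ring, Real.cos_pi_sub,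
      Real.cos_pi_div_three]
    ring
  rw [← h2]
  apply Real.cos_le_cos_of_nonneg_of_le_pi
  · positivity
  · linarith
  · nlinarith

theorem LOCAL_b0_zero (t : ℝ) (ht : ¬ inStrip t) : LOCAL_b0 t = 0 := by
  unfold LOCAL_b0
  apply expNegInvGlue.zero_of_nonpos
  have hpi := Real.pi_pos
  have hf0 := Int.fract_nonneg t
  have hf1 := Int.fract_lt_one t
  have hc : Real.cos (2 * Real.pi * t) = Real.cos (2 * Real.pi * Int.fract t) := by
    have h : 2 * Real.pi * t = 2 * Real.pi * Int.fract t + (⌊t⌋ : ℤ) * (2 * Real.pi) := by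
      have := Int.fract_add_floor t
      calc 2 * Real.pi * t = 2 * Real.pi * (Int.fract t + ⌊t⌋) := by rw [this]
        _ = _ := by ring
    rw [h, Real.cos_add_int_mul_two_pi]
  rw [hc]
  unfold inStrip at ht
  rw [Set.mem_Ioo, not_and_or, not_lt, not_lt] at ht
  rcases ht with h | h
  · have := LOCAL_cos _ hf0 h
    linarith
  · have h1 := LOCAL_cos (1 - Int.fract t) (by linarith) (by linarith)
    rw [show 2 * Real.pi * (1 - Int.fract t) = 2 * Real.pi - 2 * Real.pi * Int.fract t by ring,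
      Real.cos_two_pi_sub] at h1
    linarith

theorem LOCAL_b0_int : 0 < ∫ t in (0 : ℝ)..1, LOCAL_b0 t := by
  have hc : Continuous LOCAL_b0 := LOCAL_b0_smooth.continuous
  have hn : ∀ t, 0 ≤ LOCAL_b0 t := fun t => expNegInvGlue.nonneg _
  rw [intervalIntegral.integral_pos_iff_support_of_nonneg_ae
    (Eventually.of_forall hn) (hc.intervalIntegrable _ _)]
  refine ⟨one_pos, ?_⟩
  have hopen : IsOpen (Function.support LOCAL_b0 ∩ Set.Ioo 0 1) :=
    (hc.isOpen_support).inter isOpen_Ioo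
  have hne : (Function.support LOCAL_b0 ∩ Set.Ioo 0 1).Nonempty := by
    refine ⟨1 / 2, ?_, by norm_num⟩
    rw [Function.mem_support]
    apply ne_of_gt
    apply expNegInvGlue.pos_of_pos
    rw [show 2 * Real.pi * (1 / 2) = Real.pi by ring, Real.cos_pi]
    norm_num
  exact (hopen.measure_pos volume hne).trans_le
    (measure_mono (Set.inter_subset_inter_right _ Set.Ioo_subset_Ioc_self))

/-- bump of integral one -/
noncomputable def LOCAL_b (t : ℝ) : ℝ := (∫ t in (0 : ℝ)..1, LOCAL_b0 t)⁻¹ * LOCAL_b0 t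

theorem LOCAL_b_smooth : ContDiff ℝ (⊤ : ℕ∞) LOCAL_b := contDiff_const.mul LOCAL_b0_smooth

theorem LOCAL_b_per (t : ℝ) : LOCAL_b (t + 1) = LOCAL_b t := by
  unfold LOCAL_b; rw [LOCAL_b0_per]

theorem LOCAL_b_zero (t : ℝ) (ht : ¬ inStrip t) : LOCAL_b t = 0 := by
  unfold LOCAL_b; rw [LOCAL_b0_zero t ht, mul_zero]

theorem LOCAL_b_int : ∫ t in (0 : ℝ)..1, LOCAL_b t = 1 := by
  unfold LOCAL_b
  rw [intervalIntegral.integral_const_mul, inv_mul_cancel₀ LOCAL_b0_int.ne']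

/-- primitive of `b - 1` -/
noncomputable def LOCAL_p (t : ℝ) : ℝ := ∫ s in (0 : ℝ)..t, (LOCAL_b s - 1)

theorem LOCAL_p_der (t : ℝ) : HasDerivAt LOCAL_p (LOCAL_b t - 1) t :=
  ((LOCAL_b_smooth.continuous.sub continuous_const).integral_hasStrictDerivAt 0 t).hasDerivAt

theorem LOCAL_p_smooth : ContDiff ℝ (⊤ : ℕ∞) LOCAL_p := by
  rw [contDiff_infty_iff_deriv]
  refine ⟨fun t => (LOCAL_p_der t).differentiableAt, ?_⟩
  have : deriv LOCAL_p = fun t => LOCAL_b t - 1 := funext fun t => (LOCAL_p_der t).deriv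
  rw [this]
  exact LOCAL_b_smooth.sub contDiff_const

theorem LOCAL_p_per (t : ℝ) : LOCAL_p (t + 1) = LOCAL_p t := by
  have hc : Continuous fun s => LOCAL_b s - 1 := LOCAL_b_smooth.continuous.sub continuous_const
  have hp : Function.Periodic (fun s => LOCAL_b s - 1) 1 := fun s => by
    show LOCAL_b (s + 1) - 1 = LOCAL_b s - 1
    rw [LOCAL_b_per]
  have h1 := hp.intervalIntegral_add_eq t 0
  have h2 := intervalIntegral.integral_add_adjacent_intervals (μ := volume)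
    (hc.intervalIntegrable 0 t) (hc.intervalIntegrable t (t + 1))
  have h3 : ∫ s in (0 : ℝ)..(0 + 1), (LOCAL_b s - 1) = 0 := by
    rw [zero_add, intervalIntegral.integral_sub (LOCAL_b_smooth.continuous.intervalIntegrable _ _)
      (continuous_const.intervalIntegrable _ _), LOCAL_b_int]
    simp
  unfold LOCAL_p
  rw [← h2, h1, h3, add_zero]

/-! ### the cube -/

variable {ι : Type} [Fintype ι] [DecidableEq ι]

theorem LOCAL_meas : MeasurableSet (cube ι) :=
  MeasurableSet.univ_pi fun _ => measurableSet_Ico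

instance LOCAL_prob1 : IsProbabilityMeasure ((volume : Measure ℝ).restrict (Set.Ico (0 : ℝ) 1)) :=
  ⟨by rw [Measure.restrict_apply_univ, Real.volume_Ico]; simp⟩

theorem LOCAL_restrict : (volume : Measure (ι → ℝ)).restrict (cube ι) =
    Measure.pi fun _ => (volume : Measure ℝ).restrict (Set.Ico (0 : ℝ) 1) := by
  rw [cube, volume_pi, Measure.restrict_pi_pi]

instance LOCAL_prob : IsProbabilityMeasure ((volume : Measure (ι → ℝ)).restrict (cube ι)) := by
  rw [LOCAL_restrict]; infer_instance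

theorem LOCAL_sub : cube ι ⊆ Set.Icc (0 : ι → ℝ) 1 := by
  intro x hx
  rw [cube, Set.mem_univ_pi] at hx
  exact ⟨fun i => (hx i).1, fun i => (hx i).2.le⟩

theorem LOCAL_bdd (f : (ι → ℝ) → ℝ) (hf : Continuous f) :
    ∃ C : ℝ, ∀ x ∈ cube ι, ‖f x‖ ≤ C := by
  obtain ⟨C, hC⟩ := isCompact_Icc.exists_bound_of_continuousOn
    (hf.continuousOn (s := Set.Icc (0 : ι → ℝ) 1))
  exact ⟨C, fun x hx => hC x (LOCAL_sub hx)⟩

theorem LOCAL_int {W : Type*} [NormedAddCommGroup W] [NormedSpace ℝ W] {u : (ι → ℝ) → ℝ}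
    {w : (ι → ℝ) → W} (hu : Continuous u) (hw : AEStronglyMeasurable w volume)
    (hb : ∃ C : ℝ, ∀ x, ‖w x‖ ≤ C) : IntegrableOn (fun x => u x • w x) (cube ι) := by
  obtain ⟨C, hC⟩ := hb
  obtain ⟨D, hD⟩ := LOCAL_bdd u hu
  refine Integrable.of_bound (hu.aestronglyMeasurable.smul hw.restrict) (D * C)
    ((ae_restrict_iff' LOCAL_meas).2 (Eventually.of_forall fun x hx => ?_))
  rw [norm_smul]
  exact mul_le_mul (hD x hx) (hC x) (norm_nonneg _) ((norm_nonneg _).trans (hD x hx))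

/-! ### the coefficient -/

theorem LOCAL_alg (Λ : Ext ι) (l μ ν κ : ι) (hμ : κ ≠ μ) (hν : κ ≠ ν) (α β : ι) :
    Λ.c ν (Λ.c μ (Λ.c l (Λ.e κ (Λ.e α (Λ.e β Λ.v))))) =
      (if l = κ then ((if μ = α then (1 : ℝ) else 0) * (if ν = β then 1 else 0) -
        (if μ = β then 1 else 0) * (if ν = α then 1 else 0)) else 0) • Λ.v := by
  have hce : ∀ a b y, Λ.c a (Λ.e b y) = (if a = b then (1 : ℝ) else 0) • y - Λ.e b (Λ.c a y) := by
    intro a b y
    have h := congrArg (fun T => T y) (Λ.ce a b)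
    rw [eq_sub_iff_add_eq]
    by_cases hab : a = b
    · simpa [hab] using h
    · simpa [hab] using h
  have h1 : ∀ a b, Λ.c a (Λ.e b Λ.v) = (if a = b then (1 : ℝ) else 0) • Λ.v := by
    intro a b
    rw [hce, Λ.cv, map_zero, sub_zero]
  have h2 : ∀ a b d, Λ.c a (Λ.e b (Λ.e d Λ.v)) = (if a = b then (1 : ℝ) else 0) • Λ.e d Λ.v -
      (if a = d then (1 : ℝ) else 0) • Λ.e b Λ.v := by
    intro a b d
    rw [hce, h1, map_smul]
  have hμ' : ¬ μ = κ := fun h => hμ h.symm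
  have hν' : ¬ ν = κ := fun h => hν h.symm
  rw [hce l κ, h2]
  simp only [map_sub, map_smul, h2, h1, if_neg hμ', if_neg hν']
  by_cases hl : l = κ
  · simp only [if_pos hl]
    module
  · simp only [if_neg hl]
    module

theorem LOCAL_two (Λ : Ext ι) (l μ ν κ : ι) (hμ : κ ≠ μ) (hν : κ ≠ ν) (φ : ι → ι → ℝ)
    (hφ : ∀ μ ν, φ μ ν = -φ ν μ) :
    Λ.c ν (Λ.c μ (Λ.c l ((Λ.e κ * Λ.two φ) Λ.v))) = (if l = κ then φ μ ν else 0) • Λ.v := by
  have h : (Λ.e κ * Λ.two φ) Λ.v =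
      (1 / 2 : ℝ) • ∑ α, ∑ β, φ α β • Λ.e κ (Λ.e α (Λ.e β Λ.v)) := by
    have h1 : Λ.two φ Λ.v = (1 / 2 : ℝ) • ∑ α, ∑ β, φ α β • (Λ.e α (Λ.e β Λ.v)) := by
      simp [Ext.two, ContinuousLinearMap.sum_apply]
    rw [ContinuousLinearMap.mul_apply, h1]
    simp only [map_smul, map_sum]
  rw [h]
  simp only [map_smul, map_sum, LOCAL_alg Λ l μ ν κ hμ hν]
  by_cases hl : l = κ
  · simp only [if_pos hl]
    have h2 : ∀ α β, φ α β • (((if μ = α then (1 : ℝ) else 0) * (if ν = β then 1 else 0) -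
        (if μ = β then 1 else 0) * (if ν = α then 1 else 0)) • Λ.v) =
        (if μ = α then (if ν = β then φ α β else 0) else 0) • Λ.v -
        (if ν = α then (if μ = β then φ α β else 0) else 0) • Λ.v := by
      intro α β
      split_ifs <;> simp [sub_smul]
    simp only [h2, Finset.sum_sub_distrib, ← Finset.sum_smul]
    simp only [Finset.sum_ite_irrel, Finset.sum_ite_eq, Finset.sum_const_zero, Finset.mem_univ,
      if_true]
    rw [hφ ν μ, ← sub_smul, smul_smul]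
    congr 1
    ring
  · simp [if_neg hl]

theorem LOCAL_pt (hPT : ST_PT) (Λ : Ext ι) (φ : (ι → ℝ) → ι → ι → ℝ)
    (hφ : ∀ x μ ν, φ x μ ν = -φ x ν μ) (hG : Good Λ (fun x => Λ.two (φ x))) (l μ ν : ι)
    (hlμ : l ≠ μ) (hlν : l ≠ ν) (g : (ι → ℝ) → ℝ) (hg : ContDiff ℝ (⊤ : ℕ∞) g)
    (hper : ∀ x μ, g (x + Pi.single μ 1) = g x) (hgμ : ∀ x, pd g x μ = 0)
    (hgν : ∀ x, pd g x ν = 0) : ∫ x in cube ι, pd g x l * φ x μ ν = 0 := by
  have h0 := hPT ι Λ _ hG g hg hper
  have hc : ∀ κ, Continuous fun x => pd g x κ := by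
    intro κ
    have h1 : Continuous (fderiv ℝ g) := hg.continuous_fderiv (by simp)
    unfold pd
    fun_prop
  have hint : ∀ κ, IntegrableOn (fun x => pd g x κ • (Λ.e κ * Λ.two (φ x))) (cube ι) := by
    intro κ
    refine LOCAL_int (hc κ) (aestronglyMeasurable_const.mul hG.meas) ?_
    obtain ⟨C, hC⟩ := hG.bdd
    exact ⟨‖Λ.e κ‖ * C, fun x => (norm_mul_le _ _).trans
      (mul_le_mul_of_nonneg_left (hC x) (norm_nonneg _))⟩
  set Ψ : (Λ.X →L[ℝ] Λ.X) →L[ℝ] Λ.X := ((Λ.c ν).comp ((Λ.c μ).comp (Λ.c l))).comp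
    (ContinuousLinearMap.apply ℝ Λ.X Λ.v) with hΨ
  have h1 := congrArg Ψ h0
  rw [map_sum, map_zero] at h1
  have h2 : ∀ κ, Ψ (∫ x in cube ι, pd g x κ • (Λ.e κ * Λ.two (φ x))) =
      if l = κ then (∫ x in cube ι, pd g x l * φ x μ ν) • Λ.v else 0 := by
    intro κ
    rw [← Ψ.integral_comp_comm (hint κ)]
    have h3 : ∀ x, Ψ (pd g x κ • (Λ.e κ * Λ.two (φ x))) =
        (if l = κ then pd g x l * φ x μ ν else 0) • Λ.v := by
      intro x
      rw [map_smul]
      by_cases h4 : κ = μ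
      · subst h4
        rw [hgμ, zero_smul, if_neg hlμ, zero_smul]
      · by_cases h5 : κ = ν
        · subst h5
          rw [hgν, zero_smul, if_neg hlν, zero_smul]
        · have h6 : Ψ (Λ.e κ * Λ.two (φ x)) = (if l = κ then φ x μ ν else 0) • Λ.v :=
            LOCAL_two Λ l μ ν κ h4 h5 (φ x) (hφ x)
          rw [h6, smul_smul]
          by_cases h7 : l = κ
          · subst h7
            simp only [if_true]
          · simp only [if_neg h7, mul_zero]
    simp only [h3]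
    by_cases h7 : l = κ
    · simp only [if_pos h7]
      rw [integral_smul_const]
    · simp only [if_neg h7, zero_smul, integral_zero]
  simp only [h2, Finset.sum_ite_eq, Finset.mem_univ, if_true] at h1
  exact (smul_eq_zero.1 h1).resolve_right Λ.hv

theorem LOCAL_pd {g : (ι → ℝ) → ℝ} {x : ι → ℝ} (hg : DifferentiableAt ℝ g x) (κ : ι) {d : ℝ}
    (h : HasDerivAt (fun s : ℝ => g (x + s • Pi.single κ 1)) d 0) : pd g x κ = d := by
  rw [pd, ← hg.lineDeriv_eq_fderiv]
  exact h.deriv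

theorem LOCAL_step (hPT : ST_PT) (Λ : Ext ι) (φ : (ι → ℝ) → ι → ι → ℝ)
    (hφ : ∀ x μ ν, φ x μ ν = -φ x ν μ)
    (hm : ∀ μ ν, AEStronglyMeasurable (fun x => φ x μ ν) volume)
    (hb : ∃ C : ℝ, ∀ x μ ν, |φ x μ ν| ≤ C) (hG : Good Λ (fun x => Λ.two (φ x))) (μ ν : ι)
    (T : Finset ι) (hT : ∀ m ∈ T, m ≠ μ ∧ m ≠ ν) :
    ∫ x in cube ι, (∏ m ∈ T, LOCAL_b (x m)) * φ x μ ν = ∫ x in cube ι, φ x μ ν := by
  have hbs : Continuous LOCAL_b := LOCAL_b_smooth.continuous
  induction T using Finset.induction_on with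
  | empty => simp
  | insert l T hl ih =>
    have ih' := ih (fun m hm => hT m (Finset.mem_insert_of_mem hm))
    obtain ⟨hlμ, hlν⟩ := hT l (Finset.mem_insert_self l T)
    have hTn : ∀ m ∈ T, m ≠ l := fun m hm h => hl (h ▸ hm)
    set g : (ι → ℝ) → ℝ := fun x => LOCAL_p (x l) * ∏ m ∈ T, LOCAL_b (x m) with hgdef
    have hg : ContDiff ℝ (⊤ : ℕ∞) g := (LOCAL_p_smooth.comp (contDiff_apply ℝ ℝ l)).mul
      (contDiff_prod fun m _ => LOCAL_b_smooth.comp (contDiff_apply ℝ ℝ m))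
    have hprod : ∀ (x : ι → ℝ) (κ : ι) (s : ℝ), κ ∉ T →
        ∏ m ∈ T, LOCAL_b ((x + s • (Pi.single κ 1 : ι → ℝ)) m) = ∏ m ∈ T, LOCAL_b (x m) := by
      intro x κ s hκ
      refine Finset.prod_congr rfl (fun m hm => ?_)
      have : m ≠ κ := fun h => hκ (h ▸ hm)
      simp [Pi.single_apply, this]
    have hper : ∀ x κ, g (x + Pi.single κ 1) = g x := by
      intro x κ
      have hpo : ∀ (f : ℝ → ℝ), (∀ t, f (t + 1) = f t) → ∀ m,
          f ((x + Pi.single κ 1 : ι → ℝ) m) = f (x m) := by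
        intro f hf m
        by_cases h : m = κ
        · subst h; simp [hf]
        · simp [Pi.single_apply, h]
      simp only [hgdef]
      rw [hpo _ LOCAL_p_per]
      congr 1
      exact Finset.prod_congr rfl (fun m _ => hpo _ LOCAL_b_per m)
    have hgl : ∀ x, pd g x l = (LOCAL_b (x l) - 1) * ∏ m ∈ T, LOCAL_b (x m) := by
      intro x
      refine LOCAL_pd (hg.differentiable (by simp) x) l ?_
      simp only [hgdef, hprod x l _ hl]
      refine HasDerivAt.mul_const ?_ _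
      have h1 : ∀ s : ℝ, (x + s • (Pi.single l 1 : ι → ℝ)) l = x l + s := by
        intro s; simp
      simp only [h1]
      have h2 := (LOCAL_p_der (x l + 0)).comp_const_add (x l) 0
      simpa using h2
    have hg0 : ∀ κ, κ ≠ l → κ ∉ T → ∀ x, pd g x κ = 0 := by
      intro κ hκ hκT x
      refine LOCAL_pd (hg.differentiable (by simp) x) κ ?_
      have h1 : ∀ s : ℝ, (x + s • (Pi.single κ 1 : ι → ℝ)) l = x l := by
        intro s; simp [Pi.single_apply, Ne.symm hκ]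
      simp only [hgdef, hprod x κ _ hκT, h1]
      exact hasDerivAt_const _ _
    have hμT : μ ∉ T := fun h => (hT μ (Finset.mem_insert_of_mem h)).1 rfl
    have hνT : ν ∉ T := fun h => (hT ν (Finset.mem_insert_of_mem h)).2 rfl
    have h0 := LOCAL_pt hPT Λ φ hφ hG l μ ν hlμ hlν g hg hper
      (hg0 μ (Ne.symm hlμ) hμT) (hg0 ν (Ne.symm hlν) hνT)
    have hbd : ∃ C : ℝ, ∀ x, ‖φ x μ ν‖ ≤ C := by
      obtain ⟨C, hC⟩ := hb
      exact ⟨C, fun x => hC x μ ν⟩
    have hi1 : IntegrableOn (fun x => pd g x l * φ x μ ν) (cube ι) := by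
      refine LOCAL_int (u := fun x => pd g x l) ?_ (hm μ ν) hbd
      simp only [hgl]
      fun_prop
    have hi2 : IntegrableOn (fun x => (∏ m ∈ T, LOCAL_b (x m)) * φ x μ ν) (cube ι) := by
      refine LOCAL_int (u := fun x => ∏ m ∈ T, LOCAL_b (x m)) ?_ (hm μ ν) hbd
      fun_prop
    have h3 : ∀ x : ι → ℝ, (∏ m ∈ insert l T, LOCAL_b (x m)) * φ x μ ν =
        pd g x l * φ x μ ν + (∏ m ∈ T, LOCAL_b (x m)) * φ x μ ν := by
      intro x
      rw [Finset.prod_insert hl, hgl]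
      ring
    simp only [h3]
    rw [integral_add hi1 hi2, h0, zero_add, ih']

/-! ### Fubini -/

open ProbabilityTheory in
theorem LOCAL_fub (μ ν : ι) (hμν : μ ≠ ν) (G : ℝ → ℝ → ℝ) (hG : Measurable (Function.uncurry G))
    (hb : ∃ C : ℝ, ∀ s t, |G s t| ≤ C) :
    ∫ x in cube ι, (∏ m ∈ (({μ, ν} : Finset ι))ᶜ, LOCAL_b (x m)) * G (x μ) (x ν) =
      ∫ s in (0 : ℝ)..1, ∫ t in (0 : ℝ)..1, G s t := by
  have hbm : Measurable LOCAL_b := LOCAL_b_smooth.continuous.measurable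
  rw [LOCAL_restrict]
  set P : ι → Measure ℝ := fun _ => (volume : Measure ℝ).restrict (Set.Ico (0 : ℝ) 1) with hP
  have hPp : ∀ i, IsProbabilityMeasure (P i) := fun _ => LOCAL_prob1
  set S : Finset ι := {μ, ν} with hS
  have hμS : μ ∈ S := by simp [hS]
  have hνS : ν ∈ S := by simp [hS]
  have hI : iIndepFun (fun i (x : ι → ℝ) => x i) (Measure.pi P) :=
    iIndepFun_pi (X := fun _ => id) (fun _ => measurable_id.aemeasurable)
  have h1 := hI.indepFun_finset Sᶜ S disjoint_compl_left (fun i => measurable_pi_apply i)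
  have h2 : IndepFun (fun x : ι → ℝ => ∏ m ∈ Sᶜ, LOCAL_b (x m)) (fun x => G (x μ) (x ν))
      (Measure.pi P) := by
    have h3 := h1.comp (φ := fun y : (Sᶜ : Finset ι) → ℝ => ∏ m, LOCAL_b (y m))
      (ψ := fun y : S → ℝ => G (y ⟨μ, hμS⟩) (y ⟨ν, hνS⟩)) (by fun_prop)
      (show Measurable fun y : S → ℝ => Function.uncurry G (y ⟨μ, hμS⟩, y ⟨ν, hνS⟩) by fun_prop)
    have h4 : (fun x : ι → ℝ => ∏ m ∈ Sᶜ, LOCAL_b (x m)) =
        (fun y : (Sᶜ : Finset ι) → ℝ => ∏ m, LOCAL_b (y m)) ∘ fun a i => a i.1 := by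
      funext x
      exact (Finset.prod_coe_sort Sᶜ (fun m => LOCAL_b (x m))).symm
    rw [h4]
    exact h3
  have hm1 : Measurable fun x : ι → ℝ => ∏ m ∈ Sᶜ, LOCAL_b (x m) := by fun_prop
  have hm2 : Measurable fun x : ι → ℝ => G (x μ) (x ν) := by
    have h : Measurable fun x : ι → ℝ => Function.uncurry G (x μ, x ν) := by fun_prop
    exact h
  rw [h2.integral_fun_mul_eq_mul_integral hm1.aestronglyMeasurable hm2.aestronglyMeasurable]
  have h3 : ∫ x, ∏ m ∈ Sᶜ, LOCAL_b (x m) ∂(Measure.pi P) = 1 := by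
    have h5 := integral_fintype_prod_eq_prod (μ := P)
      (fun (m : ι) (t : ℝ) => if m ∈ Sᶜ then LOCAL_b t else 1)
    simp only [Finset.prod_ite_mem, Finset.univ_inter] at h5
    rw [h5]
    refine Finset.prod_eq_one (fun m _ => ?_)
    by_cases hm : m ∈ Sᶜ
    · simp only [if_pos hm, hP]
      rw [integral_Ico_eq_integral_Ioc, ← intervalIntegral.integral_of_le zero_le_one]
      exact LOCAL_b_int
    · simp only [if_neg hm]
      simp
  have h4 : ∫ x, G (x μ) (x ν) ∂(Measure.pi P) = ∫ p, Function.uncurry G p ∂((P μ).prod (P ν)) := by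
    have h5 := (indepFun_iff_map_prod_eq_prod_map_map (μ := Measure.pi P)
      (measurable_pi_apply μ).aemeasurable (measurable_pi_apply ν).aemeasurable).1
      (hI.indepFun hμν)
    have h6 : Measure.map (fun x : ι → ℝ => x μ) (Measure.pi P) = P μ :=
      (measurePreserving_eval P μ).map_eq
    have h7 : Measure.map (fun x : ι → ℝ => x ν) (Measure.pi P) = P ν :=
      (measurePreserving_eval P ν).map_eq
    rw [h6, h7] at h5
    rw [← h5, integral_map (by fun_prop) hG.aestronglyMeasurable]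
    rfl
  obtain ⟨C, hC⟩ := hb
  have h5 : Integrable (Function.uncurry G) ((P μ).prod (P ν)) :=
    Integrable.of_bound hG.aestronglyMeasurable C (Eventually.of_forall fun p => hC p.1 p.2)
  rw [h3, one_mul, h4, integral_prod _ h5]
  simp only [hP, Function.uncurry]
  rw [integral_Ico_eq_integral_Ioc, ← intervalIntegral.integral_of_le zero_le_one]
  refine intervalIntegral.integral_congr (fun s _ => ?_)
  rw [integral_Ico_eq_integral_Ioc, ← intervalIntegral.integral_of_le zero_le_one]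

theorem st_LOCAL (hPT : ST_PT) : ST_LOCAL := by
  intro ι _ _ Λ φ hφ hm hb hG μ ν hμν G hGm hGb hloc
  rw [← LOCAL_step hPT Λ φ hφ hm hb hG μ ν (({μ, ν} : Finset ι))ᶜ (fun m hm => by
    simpa using hm), ← LOCAL_fub μ ν hμν G hGm hGb]
  refine integral_congr_ae ?_
  filter_upwards [ae_restrict_of_ae hloc] with x hx
  by_cases h : ∀ l, l ≠ μ → l ≠ ν → inStrip (x l)
  · rw [hx h]
  · push Not at h
    obtain ⟨l, h1, h2, h3⟩ := h
    have h4 : ∏ m ∈ (({μ, ν} : Finset ι))ᶜ, LOCAL_b (x m) = 0 :=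
      Finset.prod_eq_zero (i := l) (by simp [h1, h2]) (LOCAL_b_zero _ h3)
    rw [h4, zero_mul, zero_mul]

end Pool.Agent.Helper83.CB
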