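import Pool.Agent.Helper83.CB.Defs4

set_option autoImplicit false

/-! # Means of weakly closed periodic forms are multiplicative -/

open Filter Topology MeasureTheory
open scoped Convolution Pointwise

namespace Pool.Agent.Helper83.CB

variable {ι : Type} [Fintype ι] [DecidableEq ι]

/-! ### periodic functions and the cube -/

theorem MEAN_cube_eq : cube ι = ZSpan.fundamentalDomain (Pi.basisFun ℝ ι) := by
  rw [cube, ZSpan.fundamentalDomain_pi_basisFun]

theorem MEAN_inv {W : Type*} (f : (ι → ℝ) → W) (hf : ∀ x μ, f (x + Pi.single μ 1) = f x)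
    (g : (Submodule.span ℤ (Set.range (Pi.basisFun ℝ ι))).toAddSubgroup) (x : ι → ℝ) :
    f (g +ᵥ x) = f x := by
  have key : ∀ y ∈ Submodule.span ℤ (Set.range (Pi.basisFun ℝ ι)), Function.Periodic f y := by
    intro y hy
    induction hy using Submodule.span_induction with
    | mem y hy =>
      obtain ⟨μ, rfl⟩ := hy
      intro x
      rw [Pi.basisFun_apply, hf]
    | zero => intro x; rw [add_zero]
    | add a b _ _ ha hb => intro x; rw [← add_assoc, hb, ha]
    | smul k a _ ha => exact ha.zsmul k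
  have h := key g.1 g.2 x
  rw [add_comm] at h
  exact h

theorem MEAN_vol : volume (cube ι) = 1 := by
  rw [cube, Real.volume_pi_Ico]
  simp

theorem MEAN_meas : MeasurableSet (cube ι) :=
  MeasurableSet.univ_pi fun _ => measurableSet_Ico

instance MEAN_prob : IsProbabilityMeasure (volume.restrict (cube ι)) :=
  ⟨by rw [Measure.restrict_apply_univ, MEAN_vol]⟩

/-- integrals over the cube are invariant under translations -/
theorem MEAN_shift {W : Type*} [NormedAddCommGroup W] [NormedSpace ℝ W] (f : (ι → ℝ) → W)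
    (hf : ∀ x μ, f (x + Pi.single μ 1) = f x) (b : ι → ℝ) :
    ∫ x in cube ι, f (x + b) = ∫ x in cube ι, f x := by
  have h1 := ZSpan.isAddFundamentalDomain' (Pi.basisFun ℝ ι) (volume : Measure (ι → ℝ))
  rw [← MEAN_cube_eq] at h1
  have h2 := h1.vadd_of_comm b
  haveI : Countable (Submodule.span ℤ (Set.range (Pi.basisFun ℝ ι))).toAddSubgroup :=
    inferInstanceAs (Countable (Submodule.span ℤ (Set.range (Pi.basisFun ℝ ι))))
  have h3 := h2.setIntegral_eq h1 (f := f) (fun g x => MEAN_inv f hf g x)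
  rw [← h3]
  have h4 := (measurePreserving_add_right (volume : Measure (ι → ℝ)) b).setIntegral_preimage_emb
    (measurableEmbedding_addRight b) f (b +ᵥ cube ι)
  rw [← h4]
  have h5 : (fun x : ι → ℝ => x + b) ⁻¹' (b +ᵥ cube ι) = cube ι := by
    ext x
    rw [Set.mem_preimage, Set.mem_vadd_set_iff_neg_vadd_mem, vadd_eq_add]
    have : -b + (x + b) = x := by abel
    rw [this]
  rw [h5]

/-- the closed cube -/
theorem MEAN_sub : cube ι ⊆ Set.Icc (0 : ι → ℝ) 1 := by
  intro x hx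
  rw [cube, Set.mem_univ_pi] at hx
  exact ⟨fun i => (hx i).1, fun i => (hx i).2.le⟩

theorem MEAN_bdd {W : Type*} [NormedAddCommGroup W] (f : (ι → ℝ) → W) (hf : Continuous f)
    (r : ℝ) : ∃ C : ℝ, ∀ x y : ι → ℝ, x ∈ cube ι → ‖y‖ ≤ r → ‖f (x + y)‖ ≤ C := by
  have hc : IsCompact ((fun p : (ι → ℝ) × (ι → ℝ) => p.1 + p.2) ''
      (Set.Icc (0 : ι → ℝ) 1 ×ˢ Metric.closedBall (0 : ι → ℝ) r)) :=
    (isCompact_Icc.prod (isCompact_closedBall _ _)).image (by fun_prop)
  obtain ⟨C, hC⟩ := hc.exists_bound_of_continuousOn hf.continuousOn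
  refine ⟨C, fun x y hx hy => hC _ ⟨(x, y), ⟨MEAN_sub hx, ?_⟩, rfl⟩⟩
  simpa using hy

theorem MEAN_int {W : Type*} [NormedAddCommGroup W] (f : (ι → ℝ) → W)
    (hf : AEStronglyMeasurable f (volume.restrict (cube ι))) (C : ℝ)
    (hC : ∀ x ∈ cube ι, ‖f x‖ ≤ C) : IntegrableOn f (cube ι) :=
  Integrable.of_bound hf C ((ae_restrict_iff' MEAN_meas).2 (Eventually.of_forall hC))

theorem MEAN_mul_meas (Λ : Ext ι) {ω f : (ι → ℝ) → (Λ.X →L[ℝ] Λ.X)}
    {m : Measure (ι → ℝ)} (h1 : AEStronglyMeasurable ω m) (h2 : AEStronglyMeasurable f m) :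
    AEStronglyMeasurable (fun x => ω x * f x) m := h1.mul h2

theorem MEAN_int_mul (Λ : Ext ι) {ω f : (ι → ℝ) → (Λ.X →L[ℝ] Λ.X)}
    (h1 : AEStronglyMeasurable ω volume) (hb : ∃ C : ℝ, ∀ x, ‖ω x‖ ≤ C) (h2 : Continuous f) :
    IntegrableOn (fun x => ω x * f x) (cube ι) := by
  obtain ⟨C, hC⟩ := hb
  obtain ⟨D, hD⟩ := MEAN_bdd f h2 0
  refine MEAN_int _ (h1.restrict.mul h2.aestronglyMeasurable) (C * D) (fun x hx => ?_)
  have h3 := hD x 0 hx (by simp)
  rw [add_zero] at h3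
  exact (norm_mul_le _ _).trans (mul_le_mul (hC x) h3 (norm_nonneg _)
    ((norm_nonneg _).trans (hC x)))

theorem MEAN_int_smul (Λ : Ext ι) {ω : (ι → ℝ) → (Λ.X →L[ℝ] Λ.X)} {u : (ι → ℝ) → ℝ}
    (h1 : AEStronglyMeasurable ω volume) (hb : ∃ C : ℝ, ∀ x, ‖ω x‖ ≤ C) (h2 : Continuous u) :
    IntegrableOn (fun x => u x • ω x) (cube ι) := by
  obtain ⟨C, hC⟩ := hb
  obtain ⟨D, hD⟩ := MEAN_bdd u h2 0
  refine MEAN_int _ (h2.aestronglyMeasurable.smul h1.restrict) (D * C) (fun x hx => ?_)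
  have h3 := hD x 0 hx (by simp)
  rw [add_zero] at h3
  rw [norm_smul]
  exact mul_le_mul h3 (hC x) (norm_nonneg _) ((norm_nonneg _).trans h3)

theorem MEAN_mul_const (Λ : Ext ι) {m : Measure (ι → ℝ)} {f : (ι → ℝ) → (Λ.X →L[ℝ] Λ.X)}
    (hf : Integrable f m) (b : Λ.X →L[ℝ] Λ.X) : ∫ x, f x * b ∂m = (∫ x, f x ∂m) * b :=
  ((ContinuousLinearMap.mul ℝ (Λ.X →L[ℝ] Λ.X)).flip b).integral_comp_comm hf

theorem MEAN_const_mul (Λ : Ext ι) {m : Measure (ι → ℝ)} {f : (ι → ℝ) → (Λ.X →L[ℝ] Λ.X)}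
    (hf : Integrable f m) (b : Λ.X →L[ℝ] Λ.X) : ∫ x, b * f x ∂m = b * (∫ x, f x ∂m) :=
  (ContinuousLinearMap.mul ℝ (Λ.X →L[ℝ] Λ.X) b).integral_comp_comm hf

theorem MEAN_key (hPT : ST_PT) (hEV : ST_EVEN) (Λ : Ext ι) (ω : (ι → ℝ) → (Λ.X →L[ℝ] Λ.X))
    (hω : Good Λ ω) (ζ : (ι → ℝ) → (Λ.X →L[ℝ] Λ.X)) (hζ : ContDiff ℝ (⊤ : ℕ∞) ζ)
    (hper : ∀ x μ, ζ (x + Pi.single μ 1) = ζ x) (hcl : ∀ x, ∑ μ, Λ.e μ * pd ζ x μ = 0) (μ : ι) :
    ∫ x in cube ι, ω x * pd ζ x μ = 0 := by
  obtain ⟨he, -, -⟩ := hEV ι Λ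
  set B := Module.finBasis ℝ (Λ.X →L[ℝ] Λ.X) with hB
  set ell : Fin (Module.finrank ℝ (Λ.X →L[ℝ] Λ.X)) → ((Λ.X →L[ℝ] Λ.X) →L[ℝ] ℝ) := fun k =>
    (LinearMap.toContinuousLinearMap (B.coord k)).comp
      (ContinuousLinearMap.mul ℝ (Λ.X →L[ℝ] Λ.X) (Λ.c μ)) with hell
  have hd : Differentiable ℝ ζ := hζ.differentiable (by simp)
  have hpd : ∀ k x ν, pd (fun y => ell k (ζ y)) x ν = ell k (pd ζ x ν) := by
    intro k x ν
    have h : HasFDerivAt (fun y => ell k (ζ y)) ((ell k).comp (fderiv ℝ ζ x)) x :=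
      (ell k).hasFDerivAt.comp x (hd x).hasFDerivAt
    unfold pd
    rw [h.fderiv]
    rfl
  have hPTk : ∀ k, ∑ ν, ∫ x in cube ι, ell k (pd ζ x ν) • (Λ.e ν * ω x) = 0 := by
    intro k
    have h := hPT ι Λ ω hω (fun y => ell k (ζ y)) ((ell k).contDiff.comp hζ)
      (fun x ν => by rw [hper])
    simpa only [hpd] using h
  have hc : ∀ x, pd ζ x μ = ∑ ν, Λ.e ν * (Λ.c μ * pd ζ x ν) := by
    intro x
    have h1 : Λ.c μ * ∑ ν, Λ.e ν * pd ζ x ν = 0 := by rw [hcl, mul_zero]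
    rw [Finset.mul_sum] at h1
    have h2 : ∀ ν, Λ.c μ * (Λ.e ν * pd ζ x ν) =
        (if μ = ν then pd ζ x ν else 0) - Λ.e ν * (Λ.c μ * pd ζ x ν) := by
      intro ν
      have h3 := Λ.ce μ ν
      rw [← mul_assoc, ← mul_assoc, eq_sub_iff_add_eq, ← add_mul, h3]
      split_ifs
      · rw [one_mul]
      · rw [zero_mul]
    simp only [h2, Finset.sum_sub_distrib, Finset.sum_ite_eq, Finset.mem_univ, if_true] at h1
    exact sub_eq_zero.1 h1
  have hexp : ∀ x, ω x * pd ζ x μ =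
      ∑ k, ∑ ν, (ell k (pd ζ x ν) • (Λ.e ν * ω x)) * B k := by
    intro x
    have h1 : ∀ ν, Λ.c μ * pd ζ x ν = ∑ k, ell k (pd ζ x ν) • B k := by
      intro ν
      exact (B.sum_repr (Λ.c μ * pd ζ x ν)).symm
    rw [hc x, Finset.mul_sum, Finset.sum_comm]
    refine Finset.sum_congr rfl (fun ν _ => ?_)
    rw [← mul_assoc, he _ (hω.ev x) ν, h1 ν, Finset.mul_sum]
    refine Finset.sum_congr rfl (fun k _ => ?_)
    rw [mul_smul_comm, smul_mul_assoc]
  have hcont : ∀ ν, Continuous fun x => pd ζ x ν := by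
    intro ν
    have h1 : Continuous (fderiv ℝ ζ) := hζ.continuous_fderiv (by simp)
    unfold pd
    fun_prop
  have hint : ∀ k ν, IntegrableOn (fun x => ell k (pd ζ x ν) • (Λ.e ν * ω x)) (cube ι) := by
    intro k ν
    refine MEAN_int_smul Λ (aestronglyMeasurable_const.mul hω.meas) ?_
      ((ell k).continuous.comp (hcont ν))
    obtain ⟨C, hC⟩ := hω.bdd
    exact ⟨‖Λ.e ν‖ * C, fun x => (norm_mul_le _ _).trans
      (mul_le_mul_of_nonneg_left (hC x) (norm_nonneg _))⟩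
  simp only [hexp]
  rw [integral_finsetSum _ (fun k _ => integrable_finsetSum _
    (fun ν _ => (hint k ν).mul_const (B k)))]
  refine Finset.sum_eq_zero (fun k _ => ?_)
  rw [integral_finsetSum _ (fun ν _ => (hint k ν).mul_const (B k))]
  have h1 : ∀ ν, ∫ x in cube ι, (ell k (pd ζ x ν) • (Λ.e ν * ω x)) * B k =
      (∫ x in cube ι, ell k (pd ζ x ν) • (Λ.e ν * ω x)) * B k := fun ν =>
    MEAN_mul_const Λ (hint k ν) (B k)
  simp only [h1]
  rw [← Finset.sum_mul, hPTk k, zero_mul]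

theorem MEAN_const (hPT : ST_PT) (hEV : ST_EVEN) (Λ : Ext ι) (ω : (ι → ℝ) → (Λ.X →L[ℝ] Λ.X))
    (hω : Good Λ ω) (ζ : (ι → ℝ) → (Λ.X →L[ℝ] Λ.X)) (hζ : ContDiff ℝ (⊤ : ℕ∞) ζ)
    (hper : ∀ x μ, ζ (x + Pi.single μ 1) = ζ x) (hcl : ∀ x, ∑ μ, Λ.e μ * pd ζ x μ = 0)
    (b : ι → ℝ) : ∫ x in cube ι, ω x * ζ (x + b) = ∫ x in cube ι, ω x * ζ x := by
  have hd : Differentiable ℝ ζ := hζ.differentiable (by simp)
  have hcf : Continuous (fderiv ℝ ζ) := hζ.continuous_fderiv (by simp)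
  have hcz : Continuous ζ := hζ.continuous
  have hzero : ∀ y : ι → ℝ, ∫ x in cube ι, ω x * (fderiv ℝ ζ (x + y) b) = 0 := by
    intro y
    have hfd : ∀ x, fderiv ℝ (fun x => ζ (x + y)) x = fderiv ℝ ζ (x + y) := fun x =>
      fderiv_comp_add_right y
    have hζy : ContDiff ℝ (⊤ : ℕ∞) (fun x => ζ (x + y)) := hζ.comp (by fun_prop)
    have hk : ∀ μ, ∫ x in cube ι, ω x * pd (fun x => ζ (x + y)) x μ = 0 := fun μ =>
      MEAN_key hPT hEV Λ ω hω (fun x => ζ (x + y)) hζy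
        (fun x μ => by
          have : x + Pi.single μ 1 + y = x + y + Pi.single μ 1 := by abel
          rw [this, hper])
        (fun x => by
          have h := hcl (x + y)
          unfold pd at h ⊢
          simpa only [hfd] using h) μ
    have hb : b = ∑ μ, b μ • (Pi.single μ (1 : ℝ) : ι → ℝ) := by
      ext i
      simp [Finset.sum_apply, Pi.single_apply]
    have hexp : ∀ x, ω x * (fderiv ℝ ζ (x + y) b) =
        ∑ μ, b μ • (ω x * pd (fun x => ζ (x + y)) x μ) := by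
      intro x
      conv_lhs => rw [hb]
      rw [map_sum, Finset.mul_sum]
      refine Finset.sum_congr rfl (fun μ _ => ?_)
      unfold pd
      rw [map_smul, mul_smul_comm, hfd]
    simp only [hexp]
    rw [integral_finsetSum]
    · refine Finset.sum_eq_zero (fun μ _ => ?_)
      rw [integral_smul, hk, smul_zero]
    · intro μ _
      have h2 : Continuous (fun x => pd (fun x => ζ (x + y)) x μ) := by
        unfold pd
        simp only [hfd]
        fun_prop
      exact (MEAN_int_mul Λ hω.meas hω.bdd h2).smul (b μ)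
  obtain ⟨D, hD⟩ := hω.bdd
  have hder : ∀ s : ℝ, HasDerivAt (fun s : ℝ => ∫ x in cube ι, ω x * ζ (x + s • b)) 0 s := by
    intro s
    obtain ⟨C, hC⟩ := MEAN_bdd (fderiv ℝ ζ) hcf ((|s| + 1) * ‖b‖)
    have h := (hasDerivAt_integral_of_dominated_loc_of_deriv_le (μ := volume.restrict (cube ι))
      (F := fun s x => ω x * ζ (x + s • b)) (F' := fun s x => ω x * (fderiv ℝ ζ (x + s • b) b))
      (x₀ := s) (s := Metric.ball s 1) (bound := fun _ => D * (C * ‖b‖))
      (Metric.ball_mem_nhds s one_pos) ?_ ?_ ?_ ?_ (integrable_const _) ?_).2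
    · rw [hzero (s • b)] at h
      exact h
    · exact Eventually.of_forall fun t => hω.meas.restrict.mul
        (hcz.comp (by fun_prop)).aestronglyMeasurable
    · exact MEAN_int_mul Λ hω.meas ⟨D, hD⟩ (hcz.comp (by fun_prop))
    · exact hω.meas.restrict.mul (by fun_prop : Continuous fun x => fderiv ℝ ζ (x + s • b) b).aestronglyMeasurable
    · refine (ae_restrict_iff' MEAN_meas).2 (Eventually.of_forall fun x hx t ht => ?_)
      have h1 : ‖t • b‖ ≤ (|s| + 1) * ‖b‖ := by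
        rw [norm_smul, Real.norm_eq_abs]
        refine mul_le_mul_of_nonneg_right ?_ (norm_nonneg _)
        rw [Metric.mem_ball, Real.dist_eq] at ht
        have := abs_sub_abs_le_abs_sub t s
        linarith
      have h2 := hC x (t • b) hx h1
      refine (norm_mul_le _ _).trans (mul_le_mul (hD x) ?_ (norm_nonneg _)
        ((norm_nonneg _).trans (hD x)))
      exact ((fderiv ℝ ζ (x + t • b)).le_opNorm b).trans
        (mul_le_mul_of_nonneg_right h2 (norm_nonneg _))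
    · refine Eventually.of_forall fun x t _ => ?_
      have h1 : HasDerivAt (fun t : ℝ => x + t • b) b t := by
        simpa using ((hasDerivAt_id t).smul_const b).const_add x
      have h2 := (hd (x + t • b)).hasFDerivAt.comp_hasDerivAt t h1
      exact h2.const_mul (ω x)
  have hc := is_const_of_deriv_eq_zero (fun s => (hder s).differentiableAt)
    (fun s => (hder s).deriv) 1 0
  simpa using hc

theorem MEAN_avg (hPT : ST_PT) (hEV : ST_EVEN) (Λ : Ext ι) (ω : (ι → ℝ) → (Λ.X →L[ℝ] Λ.X))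
    (hω : Good Λ ω) (ζ : (ι → ℝ) → (Λ.X →L[ℝ] Λ.X)) (hζ : ContDiff ℝ (⊤ : ℕ∞) ζ)
    (hper : ∀ x μ, ζ (x + Pi.single μ 1) = ζ x) (hcl : ∀ x, ∑ μ, Λ.e μ * pd ζ x μ = 0) :
    ∫ x in cube ι, ω x * ζ x = (∫ x in cube ι, ω x) * ∫ x in cube ι, ζ x := by
  have hcz : Continuous ζ := hζ.continuous
  obtain ⟨D, hD⟩ := hω.bdd
  have h1 : ∫ b in cube ι, ∫ x in cube ι, ω x * ζ (x + b) = ∫ x in cube ι, ω x * ζ x := by
    have h : ∀ b, ∫ x in cube ι, ω x * ζ (x + b) = ∫ x in cube ι, ω x * ζ x := fun b =>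
      MEAN_const hPT hEV Λ ω hω ζ hζ hper hcl b
    simp only [h]
    rw [integral_const, measureReal_def, Measure.restrict_apply_univ, MEAN_vol]
    simp
  have hint : Integrable (Function.uncurry fun (b x : ι → ℝ) => ω x * ζ (x + b))
      ((volume.restrict (cube ι)).prod (volume.restrict (cube ι))) := by
    obtain ⟨C, hC⟩ := MEAN_bdd ζ hcz 1
    have hm : AEStronglyMeasurable (Function.uncurry fun (b x : ι → ℝ) => ω x * ζ (x + b))
        ((volume.restrict (cube ι)).prod (volume.restrict (cube ι))) := by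
      refine AEStronglyMeasurable.mul ?_ ?_
      · exact hω.meas.restrict.comp_snd
      · exact (hcz.comp (by fun_prop : Continuous fun p : (ι → ℝ) × (ι → ℝ) => p.2 + p.1)).aestronglyMeasurable
    refine Integrable.of_bound hm (D * C) ?_
    rw [Measure.prod_restrict]
    refine (ae_restrict_iff' (MEAN_meas.prod MEAN_meas)).2 (Eventually.of_forall ?_)
    rintro ⟨b, x⟩ ⟨hb, hx⟩
    have h2 : ‖b‖ ≤ 1 := by
      rw [pi_norm_le_iff_of_nonneg zero_le_one]
      intro i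
      have h3 := MEAN_sub hb
      rw [Real.norm_eq_abs, abs_le]
      have h4 := h3.1 i
      have h5 := h3.2 i
      simp only [Pi.zero_apply, Pi.one_apply] at h4 h5
      constructor <;> linarith
    exact (norm_mul_le _ _).trans (mul_le_mul (hD x) (hC x b hx h2) (norm_nonneg _)
      ((norm_nonneg _).trans (hD x)))
  have h3 : ∀ x, ∫ b in cube ι, ω x * ζ (x + b) = ω x * ∫ b in cube ι, ζ b := by
    intro x
    rw [← MEAN_shift ζ hper x]
    have h4 : IntegrableOn (fun b => ζ (b + x)) (cube ι) := by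
      obtain ⟨C, hC⟩ := MEAN_bdd ζ hcz ‖x‖
      exact MEAN_int _ (hcz.comp (by fun_prop)).aestronglyMeasurable C
        (fun b hb => hC b x hb le_rfl)
    rw [← MEAN_const_mul Λ h4 (ω x)]
    simp only [add_comm]
  have h5 : IntegrableOn ω (cube ι) := MEAN_int _ hω.meas.restrict D (fun x _ => hD x)
  rw [← h1, integral_integral_swap hint]
  simp only [h3]
  exact MEAN_mul_const Λ h5 _

/-! ### mollification -/

theorem MEAN_loc (Λ : Ext ι) (η : (ι → ℝ) → (Λ.X →L[ℝ] Λ.X)) (hη : Good Λ η) :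
    LocallyIntegrable η volume := by
  obtain ⟨C, hC⟩ := hη.bdd
  exact (memLp_top_of_bound hη.meas C (Eventually.of_forall hC)).locallyIntegrable le_top

theorem MEAN_moll (Λ : Ext ι) (η : (ι → ℝ) → (Λ.X →L[ℝ] Λ.X)) (hη : Good Λ η)
    (ρ : (ι → ℝ) → ℝ) (hρ : ContDiff ℝ (⊤ : ℕ∞) ρ) (hs : HasCompactSupport ρ) :
    ContDiff ℝ (⊤ : ℕ∞) (ρ ⋆[ContinuousLinearMap.lsmul ℝ ℝ, volume] η) ∧
    (∀ x μ, (ρ ⋆[ContinuousLinearMap.lsmul ℝ ℝ, volume] η) (x + Pi.single μ 1) =
      (ρ ⋆[ContinuousLinearMap.lsmul ℝ ℝ, volume] η) x) ∧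
    (∀ x, ∑ μ, Λ.e μ * pd (ρ ⋆[ContinuousLinearMap.lsmul ℝ ℝ, volume] η) x μ = 0) := by
  have hloc := MEAN_loc Λ η hη
  refine ⟨hs.contDiff_convolution_left _ hρ hloc, ?_, ?_⟩
  · intro x μ
    rw [convolution_def, convolution_def]
    refine integral_congr_ae (Eventually.of_forall fun t => ?_)
    have : x + Pi.single μ 1 - t = x - t + Pi.single μ 1 := by abel
    simp only [this, hη.per]
  · intro x
    have hρ1 : ContDiff ℝ 1 ρ := hρ.of_le (by simp)
    have hd := hs.hasFDerivAt_convolution_left (ContinuousLinearMap.lsmul ℝ ℝ) hρ1 hloc x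
    have hex := (hs.fderiv ℝ).convolutionExists_left (𝕜 := ℝ)
      (F := (ι → ℝ) →L[ℝ] (Λ.X →L[ℝ] Λ.X))
      (ContinuousLinearMap.precompL (ι → ℝ) (ContinuousLinearMap.lsmul ℝ ℝ :
        ℝ →L[ℝ] (Λ.X →L[ℝ] Λ.X) →L[ℝ] (Λ.X →L[ℝ] Λ.X)))
      (hρ1.continuous_fderiv (by simp)) hloc x
    have hpd : ∀ μ, pd (ρ ⋆[ContinuousLinearMap.lsmul ℝ ℝ, volume] η) x μ =
        ∫ t, pd ρ (x - t) μ • η t := by
      intro μ
      have h1 : ∫ t, pd ρ (x - t) μ • η t = ∫ t, pd ρ t μ • η (x - t) := by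
        rw [← integral_sub_left_eq_self (fun t => pd ρ t μ • η (x - t)) volume x]
        refine integral_congr_ae (Eventually.of_forall fun t => ?_)
        simp only [sub_sub_cancel]
      rw [h1, pd, hd.fderiv, convolution_def, ContinuousLinearMap.integral_apply hex]
      rfl
    have hint : ∀ μ, Integrable (fun t => pd ρ (x - t) μ • η t) := by
      intro μ
      have h2 : Integrable (fun t => pd ρ t μ • η (x - t)) :=
        Integrable.apply_continuousLinearMap hex (Pi.single μ (1 : ℝ))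
      have h3 := h2.comp_sub_left x
      simpa only [sub_sub_cancel] using h3
    have hg : ∀ t μ, pd (fun t => ρ (x - t)) t μ = -pd ρ (x - t) μ := by
      intro t μ
      have h1 : HasFDerivAt (fun t => x - t) (-ContinuousLinearMap.id ℝ (ι → ℝ)) t :=
        (hasFDerivAt_id t).const_sub x
      have h2 := ((hρ1.differentiable (by simp)) (x - t)).hasFDerivAt.comp t h1
      have h3 : HasFDerivAt (fun t => ρ (x - t))
        ((fderiv ℝ ρ (x - t)).comp (-ContinuousLinearMap.id ℝ (ι → ℝ))) t := h2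
      rw [pd, h3.fderiv, pd]
      simp
    have hcl := hη.closed (fun t => ρ (x - t)) (hρ.comp (by fun_prop))
      (hs.comp_homeomorph (Homeomorph.subLeft x))
    simp only [hg, neg_smul, integral_neg, Finset.sum_neg_distrib, neg_eq_zero] at hcl
    rw [← hcl]
    refine Finset.sum_congr rfl (fun μ _ => ?_)
    rw [hpd μ, ← MEAN_const_mul Λ (hint μ)]
    refine integral_congr_ae (Eventually.of_forall fun t => ?_)
    simp only [mul_smul_comm]

theorem MEAN_bound (Λ : Ext ι) (η : (ι → ℝ) → (Λ.X →L[ℝ] Λ.X)) (C : ℝ)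
    (hC : ∀ x, ‖η x‖ ≤ C) (φ : ContDiffBump (0 : ι → ℝ)) (x : ι → ℝ) :
    ‖(φ.normed volume ⋆[ContinuousLinearMap.lsmul ℝ ℝ, volume] η) x‖ ≤ C := by
  rw [convolution_def]
  have h1 : Integrable (fun t => φ.normed volume t * C) (volume : Measure (ι → ℝ)) :=
    φ.integrable_normed.mul_const C
  have h2 := norm_integral_le_of_norm_le (f := fun t =>
    (ContinuousLinearMap.lsmul ℝ ℝ (φ.normed volume t)) (η (x - t))) h1
    (Eventually.of_forall fun t => by
      rw [ContinuousLinearMap.lsmul_apply, norm_smul, Real.norm_eq_abs,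
        abs_of_nonneg (φ.nonneg_normed t)]
      exact mul_le_mul_of_nonneg_left (hC _) (φ.nonneg_normed t))
  rw [integral_mul_const, φ.integral_normed, one_mul] at h2
  exact h2

theorem st_MEAN (hPT : ST_PT) (hEV : ST_EVEN) : ST_MEAN := by
  intro ι _ _ Λ ω η hω hη
  have hloc := MEAN_loc Λ η hη
  obtain ⟨C, hC⟩ := hη.bdd
  obtain ⟨D, hD⟩ := hω.bdd
  set φ : ℕ → ContDiffBump (0 : ι → ℝ) := fun n =>
    ⟨1 / ((n : ℝ) + 1), 2 / ((n : ℝ) + 1), by positivity, by
      have h : (0 : ℝ) < (n : ℝ) + 1 := by positivity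
      rw [div_lt_div_iff_of_pos_right h]; norm_num⟩ with hφ
  set ζ : ℕ → (ι → ℝ) → (Λ.X →L[ℝ] Λ.X) := fun n =>
    (φ n).normed volume ⋆[ContinuousLinearMap.lsmul ℝ ℝ, volume] η with hζ
  have hz := fun n => MEAN_moll Λ η hη ((φ n).normed volume) (φ n).contDiff_normed
    (φ n).hasCompactSupport_normed
  have hae : ∀ᵐ x, Tendsto (fun n => ζ n x) atTop (𝓝 (η x)) := by
    refine ContDiffBump.ae_convolution_tendsto_right_of_locallyIntegrable (K := 2) ?_ ?_ hloc
    · have h : Tendsto (fun n : ℕ => 2 * (1 / ((n : ℝ) + 1))) atTop (𝓝 (2 * 0)) :=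
        tendsto_one_div_add_atTop_nhds_zero_nat.const_mul 2
      rw [mul_zero] at h
      refine h.congr (fun n => ?_)
      simp only [hφ]
      ring
    · refine Eventually.of_forall fun n => ?_
      simp only [hφ]
      apply le_of_eq
      ring
  have hcont : ∀ n, Continuous (ζ n) := fun n => (hz n).1.continuous
  have hae' : ∀ᵐ x ∂(volume.restrict (cube ι)), Tendsto (fun n => ζ n x) atTop (𝓝 (η x)) :=
    ae_restrict_of_ae hae
  have h1 : Tendsto (fun n => ∫ x in cube ι, ζ n x) atTop (𝓝 (∫ x in cube ι, η x)) :=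
    tendsto_integral_of_dominated_convergence (fun _ => C)
      (fun n => (hcont n).aestronglyMeasurable) (integrable_const _)
      (fun n => Eventually.of_forall fun x => MEAN_bound Λ η C hC (φ n) x) hae'
  have h2 : Tendsto (fun n => ∫ x in cube ι, ω x * ζ n x) atTop
      (𝓝 (∫ x in cube ι, ω x * η x)) :=
    tendsto_integral_of_dominated_convergence (fun _ => D * C)
      (fun n => hω.meas.restrict.mul (hcont n).aestronglyMeasurable) (integrable_const _)
      (fun n => Eventually.of_forall fun x => (norm_mul_le _ _).trans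
        (mul_le_mul (hD x) (MEAN_bound Λ η C hC (φ n) x) (norm_nonneg _)
          ((norm_nonneg _).trans (hD x))))
      (hae'.mono fun x hx => hx.const_mul (ω x))
  have h3 : ∀ n, ∫ x in cube ι, ω x * ζ n x = (∫ x in cube ι, ω x) * ∫ x in cube ι, ζ n x :=
    fun n => MEAN_avg hPT hEV Λ ω hω (ζ n) (hz n).1 (hz n).2.1 (hz n).2.2
  simp only [h3] at h2
  exact tendsto_nhds_unique h2 (h1.const_mul _)

end Pool.Agent.Helper83.CB
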