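import Pool.Agent.Helper27.CB.BAS

/-! # SUM: sums of non-orthogonal rotational subspaces -/

open Filter Topology

namespace Pool.Agent.Helper83.CB

/-- a Hilbertian norm is isometric to the standard one -/
theorem SUM_hilb {V : Type*} [AddCommGroup V] [Module ℂ V] [FiniteDimensional ℂ V] (N : V → ℝ)
    (hN : IsNorm N) (hp : ∀ a b, N (a + b) ^ 2 + N (a - b) ^ 2 = 2 * (N a ^ 2 + N b ^ 2)) :
    ∃ S : V ≃ₗ[ℂ] E (Module.finrank ℂ V), ∀ x, ‖S x‖ = N x := by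
  let _ : Norm V := ⟨N⟩
  have core : NormedSpace.Core ℂ V :=
    { norm_nonneg := fun x => BAS_nonneg hN x
      norm_smul := fun c x => hN.smul c x
      norm_triangle := fun x y => hN.add x y
      norm_eq_zero_iff := fun x => ⟨fun h => BAS_eq_zero hN h, fun h => by
        rw [h]; exact BAS_zero hN⟩ }
  let _ : NormedAddCommGroup V := NormedAddCommGroup.ofCore core
  let _ : NormedSpace ℂ V := NormedSpace.ofCore core
  let _ : InnerProductSpace ℂ V := InnerProductSpace.ofNorm ℂ fun x y => by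
    have := hp x y
    change N (x + y) * N (x + y) + N (x - y) * N (x - y) = 2 * (N x * N x + N y * N y)
    linarith
  let e : V ≃ₗᵢ[ℂ] E (Module.finrank ℂ V) := (stdOrthonormalBasis ℂ V).repr
  exact ⟨e.toLinearEquiv, fun x => e.norm_map x⟩

theorem SUM_trans {k : ℕ} (a b : E k) (h : ‖a‖ = ‖b‖) : ∃ U : E k →ₗᵢ[ℂ] E k, U a = b := by
  by_cases ha : a = 0
  · rw [ha, norm_zero] at h
    refine ⟨LinearIsometry.id, ?_⟩
    rw [ha, norm_eq_zero.mp h.symm]
    rfl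
  · let e := LinearEquiv.toSpanNonzeroSingleton ℂ (E k) a ha
    let L : Submodule.span ℂ {a} →ₗᵢ[ℂ] E k :=
      { toLinearMap := (LinearMap.toSpanSingleton ℂ (E k) b) ∘ₗ e.symm.toLinearMap
        norm_map' := fun x => by
          obtain ⟨c, rfl⟩ := e.surjective x
          change ‖(e.symm (e c)) • b‖ = ‖e c‖
          rw [e.symm_apply_apply, norm_smul, ← h]
          change ‖c‖ * ‖a‖ = ‖c • a‖
          rw [norm_smul] }
    refine ⟨L.extend, ?_⟩
    have h1 := L.extend_apply (e 1)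
    have h2 : ((e 1 : Submodule.span ℂ {a}) : E k) = a := by
      change (1 : ℂ) • a = a
      rw [one_smul]
    rw [h2] at h1
    rw [h1]
    change (e.symm (e 1)) • b = b
    rw [e.symm_apply_apply, one_smul]

section

variable {d : ℕ} {N : E d → ℝ}

theorem SUM_isCompl {A C : Submodule ℂ (E d)} (hA : Rot N ⊤ A C) : IsCompl A C :=
  ⟨disjoint_iff.mpr hA.inf, codisjoint_iff.mpr hA.sup⟩

theorem SUM_ext (hinv : ∀ g : E d →ₗ[ℂ] E d, (∀ x, N (g x) = N x) → ∀ x, ‖g x‖ = ‖x‖)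
    {A C : Submodule ℂ (E d)} (hA : Rot N ⊤ A C) (U : A →ₗ[ℂ] A)
    (hU : ∀ a : A, N (U a : E d) = N (a : E d)) (a : A) (c : E d) (hc : c ∈ C) :
    ‖(U a : E d) + c‖ = ‖(a : E d) + c‖ := by
  let g : E d →ₗ[ℂ] E d :=
    LinearMap.ofIsCompl (SUM_isCompl hA) (A.subtype ∘ₗ U) C.subtype
  have hg : ∀ (a : A) (c : C), g ((a : E d) + c) = (U a : E d) + c := by
    intro a c
    rw [map_add]
    congr 1
    · exact LinearMap.ofIsCompl_apply_left _ a
    · exact LinearMap.ofIsCompl_apply_right _ c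
  have h1 := hinv g (fun x => by
    have hx : x ∈ A ⊔ C := by rw [hA.sup]; trivial
    obtain ⟨a, ha, c, hc, rfl⟩ := Submodule.mem_sup.mp hx
    rw [hg ⟨a, ha⟩ ⟨c, hc⟩]
    exact hA.rot _ (U ⟨a, ha⟩).2 _ ha _ hc (hU ⟨a, ha⟩)) ((a : E d) + c)
  rw [hg a ⟨c, hc⟩] at h1
  exact h1

theorem SUM_orth (hN : IsNorm N)
    (hinv : ∀ g : E d →ₗ[ℂ] E d, (∀ x, N (g x) = N x) → ∀ x, ‖g x‖ = ‖x‖)
    {A C : Submodule ℂ (E d)} (hA : Rot N ⊤ A C) : C = Aᗮ := by
  have hre : ∀ a ∈ A, ∀ c ∈ C, RCLike.re (inner ℂ a c) = (0 : ℝ) := by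
    intro a ha c hc
    have h1 := SUM_ext hinv hA (-LinearMap.id) (fun a => by
      change N ((-a : A) : E d) = _
      rw [Submodule.coe_neg, BAS_neg hN]) ⟨a, ha⟩ c hc
    have h2 : ‖-a + c‖ = ‖a + c‖ := h1
    have h3 := norm_add_sq (𝕜 := ℂ) (-a) c
    have h4 := norm_add_sq (𝕜 := ℂ) a c
    rw [h2, inner_neg_left, map_neg, norm_neg] at h3
    linarith
  have hle : C ≤ Aᗮ := by
    intro c hc
    rw [Submodule.mem_orthogonal]
    intro a ha
    apply Complex.ext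
    · exact hre a ha c hc
    · have h1 := hre (Complex.I • a) (A.smul_mem _ ha) c hc
      rw [inner_smul_left] at h1
      simpa using h1
  refine le_antisymm hle fun x hx => ?_
  have hx' : x ∈ A ⊔ C := by rw [hA.sup]; trivial
  obtain ⟨a, ha, c, hc, rfl⟩ := Submodule.mem_sup.mp hx'
  have h1 : a ∈ Aᗮ := by
    have := Aᗮ.sub_mem hx (hle hc)
    rwa [add_sub_cancel_right] at this
  have h2 : a = 0 := by
    have h3 : a ∈ A ⊓ Aᗮ := ⟨ha, h1⟩
    rw [Submodule.inf_orthogonal_eq_bot] at h3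
    exact h3
  rw [h2, zero_add]
  exact hc

theorem SUM_const1 (hN : IsNorm N)
    (hinv : ∀ g : E d →ₗ[ℂ] E d, (∀ x, N (g x) = N x) → ∀ x, ‖g x‖ = ‖x‖)
    {A C : Submodule ℂ (E d)} (hA : Rot N ⊤ A C) (a a' : E d) (ha : a ∈ A) (ha' : a' ∈ A)
    (h : N a = N a') : ‖a‖ = ‖a'‖ := by
  have hNA : IsNorm (fun x : A => N (x : E d)) :=
    ⟨fun x hx => hN.pos x fun h => hx (Subtype.ext h), fun c x => hN.smul c x,
      fun x y => hN.add x y⟩
  obtain ⟨S, hS⟩ := SUM_hilb (fun x : A => N (x : E d)) hNA fun x y => hA.hilb x x.2 y y.2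
  obtain ⟨V, hV⟩ := SUM_trans (S ⟨a, ha⟩) (S ⟨a', ha'⟩) (by rw [hS, hS]; exact h)
  let U : A →ₗ[ℂ] A := S.symm.toLinearMap ∘ₗ V.toLinearMap ∘ₗ S.toLinearMap
  have hU : ∀ x : A, N (U x : E d) = N (x : E d) := by
    intro x
    have h1 := hS (U x)
    have h2 : S (U x) = V (S x) := S.apply_symm_apply _
    rw [h2, V.norm_map, hS] at h1
    exact h1.symm
  have h1 := SUM_ext hinv hA U hU ⟨a, ha⟩ 0 C.zero_mem
  have h2 : U ⟨a, ha⟩ = ⟨a', ha'⟩ := by
    change S.symm (V (S ⟨a, ha⟩)) = _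
    rw [hV, S.symm_apply_apply]
  rw [h2, add_zero, add_zero] at h1
  exact h1.symm

theorem SUM_const2 (hN : IsNorm N)
    (hinv : ∀ g : E d →ₗ[ℂ] E d, (∀ x, N (g x) = N x) → ∀ x, ‖g x‖ = ‖x‖)
    {A C : Submodule ℂ (E d)} (hA : Rot N ⊤ A C) (a a' : E d) (ha : a ∈ A) (ha' : a' ∈ A)
    (h : ‖a‖ = ‖a'‖) : N a = N a' := by
  by_cases h0 : a' = 0
  · rw [h0, norm_zero] at h
    rw [h0, norm_eq_zero.mp h]
  have hNa' : 0 < N a' := hN.pos a' h0
  have hn : 0 < ‖a'‖ := norm_pos_iff.mpr h0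
  have h1 : N (((N a / N a' : ℝ) : ℂ) • a') = N a := by
    rw [hN.smul, Complex.norm_real, Real.norm_of_nonneg (div_nonneg (BAS_nonneg hN a) hNa'.le)]
    field_simp
  have h2 := SUM_const1 hN hinv hA _ _ ha (A.smul_mem _ ha') h1.symm
  rw [norm_smul, Complex.norm_real, Real.norm_of_nonneg (div_nonneg (BAS_nonneg hN a) hNa'.le),
    h] at h2
  have h3 : N a / N a' = 1 := by
    have h4 : (N a / N a' - 1) * ‖a'‖ = 0 := by linarith
    rcases mul_eq_zero.mp h4 with h5 | h5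
    · linarith
    · exact absurd h5 hn.ne'
  rw [div_eq_one_iff_eq hNa'.ne'] at h3
  exact h3

/-- the main step -/
theorem SUM_move (hN : IsNorm N)
    (hinv : ∀ g : E d →ₗ[ℂ] E d, (∀ x, N (g x) = N x) → ∀ x, ‖g x‖ = ‖x‖)
    {A C B D : Submodule ℂ (E d)} (hA : Rot N ⊤ A C) (hB : Rot N ⊤ B D) (hBC : ¬ B ≤ C)
    (y : E d) (hy : y ∈ A ⊔ B) :
    ∃ y' ∈ A, ‖y'‖ = ‖y‖ ∧ ∀ c ∈ C ⊓ D, N (y' + c) = N (y + c) := by
  have hCo := SUM_orth hN hinv hA
  have hDo := SUM_orth hN hinv hB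
  let O : Set (E d) := {y' | y' ∈ A ⊔ B ∧ ‖y'‖ = ‖y‖ ∧ ∀ c ∈ C ⊓ D, N (y' + c) = N (y + c)}
  have hOc : IsCompact O := by
    refine Metric.isCompact_of_isClosed_isBounded ?_ ?_
    · have h1 : O = ((A ⊔ B : Submodule ℂ (E d)) : Set (E d)) ∩ ({y' | ‖y'‖ = ‖y‖} ∩
          ⋂ c ∈ C ⊓ D, {y' | N (y' + c) = N (y + c)}) := by
        ext y'
        simp only [O, Set.mem_ofPred_eq, Set.mem_inter_iff, SetLike.mem_coe, Set.mem_iInter]
      rw [h1]
      refine (Submodule.closed_of_finiteDimensional _).inter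
        ((isClosed_eq continuous_norm continuous_const).inter ?_)
      refine isClosed_biInter fun c _ => ?_
      exact isClosed_eq ((BAS_cont hN).comp (by fun_prop)) continuous_const
    · refine (Metric.isBounded_iff_subset_closedBall 0).mpr ⟨‖y‖, fun y' hy' => ?_⟩
      rw [mem_closedBall_zero_iff]
      exact hy'.2.1.le
  obtain ⟨y', hy', hmax⟩ := hOc.exists_isMaxOn ⟨y, hy, rfl, fun c _ => rfl⟩
    (f := fun v => ‖A.starProjection v‖) (by fun_prop)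
  have hmax' : ∀ v ∈ O, ‖A.starProjection v‖ ≤ ‖A.starProjection y'‖ := fun v hv => hmax hv
  let p : E d := A.starProjection y'
  let z : E d := y' - p
  have hp : p ∈ A := Submodule.starProjection_apply_mem _ _
  have hz : z ∈ Aᗮ := Submodule.sub_starProjection_mem_orthogonal y'
  have hy'pz : y' = p + z := by
    change y' = p + (y' - p)
    rw [add_sub_cancel]
  by_cases hz0 : z = 0
  · refine ⟨y', ?_, hy'.2⟩
    rw [hy'pz, hz0, add_zero]
    exact hp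
  exfalso
  -- projection of sums
  have hproj : ∀ u v : E d, u ∈ A → v ∈ Aᗮ → A.starProjection (u + v) = u := by
    intro u v hu hv
    rw [map_add, Submodule.starProjection_eq_self_iff.mpr hu,
      (Submodule.starProjection_apply_eq_zero_iff A).mpr hv, add_zero]
  have hzAB : z ∈ A ⊔ B := (A ⊔ B).sub_mem hy'.1 (le_sup_left (a := A) hp)
  -- choice of `b`
  obtain ⟨b, hb, hbz, hbC⟩ : ∃ b ∈ B, inner ℂ b z ≠ 0 ∧ b ∉ Aᗮ := by
    obtain ⟨b1, hb1, hb1z⟩ : ∃ b ∈ B, inner ℂ b z ≠ 0 := by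
      by_contra hc
      push Not at hc
      apply hz0
      have h1 : z ∈ (A ⊔ B)ᗮ := by
        rw [← Submodule.inf_orthogonal]
        exact ⟨hz, (Submodule.mem_orthogonal _ _).mpr hc⟩
      have h2 : z ∈ (A ⊔ B) ⊓ (A ⊔ B)ᗮ := ⟨hzAB, h1⟩
      rw [Submodule.inf_orthogonal_eq_bot] at h2
      exact h2
    obtain ⟨b2, hb2, hb2C⟩ : ∃ b ∈ B, b ∉ Aᗮ := by
      rw [← hCo]
      exact Set.not_subset.mp hBC
    by_cases h1 : b1 ∈ Aᗮ
    · by_cases h2 : inner ℂ b2 z = 0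
      · refine ⟨b1 + b2, B.add_mem hb1 hb2, ?_, fun h3 => hb2C ?_⟩
        · rw [inner_add_left, h2, add_zero]
          exact hb1z
        · have := Aᗮ.sub_mem h3 h1
          rwa [add_sub_cancel_left] at this
      · exact ⟨b2, hb2, h2, hb2C⟩
    · exact ⟨b1, hb1, hb1z, h1⟩
  -- normalisation
  obtain ⟨b, hb, hbn, hbz, hbC⟩ : ∃ b ∈ B, ‖b‖ = 1 ∧ inner ℂ b z ≠ 0 ∧ b ∉ Aᗮ := by
    have hb0 : b ≠ 0 := by
      rintro rfl
      exact hbC (Aᗮ).zero_mem
    have hn : (‖b‖ : ℂ) ≠ 0 := by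
      rw [Complex.ofReal_ne_zero]
      exact norm_ne_zero_iff.mpr hb0
    refine ⟨((‖b‖ : ℂ)⁻¹) • b, B.smul_mem _ hb, ?_, ?_, fun h => hbC ?_⟩
    · rw [norm_smul, norm_inv, Complex.norm_real, norm_norm]
      exact inv_mul_cancel₀ (norm_ne_zero_iff.mpr hb0)
    · rw [inner_smul_left]
      exact mul_ne_zero (by simpa using hb0) hbz
    · have := Aᗮ.smul_mem (‖b‖ : ℂ) h
      rwa [smul_smul, mul_inv_cancel₀ hn, one_smul] at this
  let q : E d := A.starProjection b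
  have hq : q ∈ A := Submodule.starProjection_apply_mem _ _
  have hbq : b - q ∈ Aᗮ := Submodule.sub_starProjection_mem_orthogonal b
  have hq0 : q ≠ 0 := by
    intro h
    apply hbC
    rw [h, sub_zero] at hbq
    exact hbq
  have hqn : 0 < ‖q‖ := norm_pos_iff.mpr hq0
  let ζ : ℂ := inner ℂ b z
  have hζ : 0 < ‖ζ‖ := norm_pos_iff.mpr hbz
  let κ : ℂ := Complex.I * ζ / (‖ζ‖ : ℂ) * ((‖p‖ / ‖q‖ : ℝ) : ℂ)
  let p' : E d := κ • q
  have hp' : p' ∈ A := A.smul_mem _ hq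
  have hκn : ‖κ‖ = ‖p‖ / ‖q‖ := by
    simp only [κ, norm_mul, norm_div, Complex.norm_I, Complex.norm_real, norm_norm, one_mul]
    rw [div_self hζ.ne', one_mul]
  have hp'n : ‖p'‖ = ‖p‖ := by
    change ‖κ • q‖ = ‖p‖
    rw [norm_smul, hκn]
    field_simp
  -- inner products with elements of `A`
  have hbA : ∀ a ∈ A, inner ℂ b a = inner ℂ q a := by
    intro a ha
    have h1 : inner ℂ (b - q) a = 0 := by
      rw [← inner_conj_symm, (Submodule.mem_orthogonal _ _).mp hbq a ha, map_zero]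
    rw [inner_sub_left] at h1
    exact sub_eq_zero.mp h1
  have hbp' : inner ℂ b p' = κ * ((‖q‖ ^ 2 : ℝ) : ℂ) := by
    rw [hbA p' hp']
    change inner ℂ q (κ • q) = _
    rw [inner_smul_right, inner_self_eq_norm_sq_to_K]
    push_cast
    rfl
  have hre : (ζ * (starRingEnd ℂ) (inner ℂ b p')).re = 0 := by
    rw [hbp']
    have h1 : ζ * (starRingEnd ℂ) (κ * ((‖q‖ ^ 2 : ℝ) : ℂ)) =
        -(Complex.I * (((‖ζ‖ : ℝ) * (‖p‖ / ‖q‖) * ‖q‖ ^ 2 : ℝ) : ℂ)) := by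
      simp only [κ, map_mul, map_div₀, Complex.conj_I, Complex.conj_ofReal]
      have h2 : ζ * (starRingEnd ℂ) ζ = ((‖ζ‖ ^ 2 : ℝ) : ℂ) := by
        rw [Complex.mul_conj, Complex.normSq_eq_norm_sq]
      have h3 : (‖ζ‖ : ℂ) ≠ 0 := by
        rw [Complex.ofReal_ne_zero]
        exact hζ.ne'
      push_cast at h2 ⊢
      field_simp
      linear_combination (-(‖q‖ : ℂ) * (‖p‖ : ℂ)) * h2
    rw [h1, Complex.neg_re, Complex.I_mul_re, Complex.ofReal_im, neg_zero, neg_zero]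
  -- the first move
  let y1 : E d := p' + z
  have hzC : z ∈ C := by rw [hCo]; exact hz
  have hNp : N p' = N p := SUM_const2 hN hinv hA _ _ hp' hp hp'n
  have hsq : ∀ u v : E d, u ∈ A → v ∈ Aᗮ → ‖u + v‖ ^ 2 = ‖u‖ ^ 2 + ‖v‖ ^ 2 := by
    intro u v hu hv
    rw [norm_add_sq (𝕜 := ℂ) u v, (Submodule.mem_orthogonal _ _).mp hv u hu]
    simp
  have hsqB : ∀ u v : E d, u ∈ B → v ∈ Bᗮ → ‖u + v‖ ^ 2 = ‖u‖ ^ 2 + ‖v‖ ^ 2 := by
    intro u v hu hv
    rw [norm_add_sq (𝕜 := ℂ) u v, (Submodule.mem_orthogonal _ _).mp hv u hu]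
    simp
  have hy1n : ‖y1‖ ^ 2 = ‖y'‖ ^ 2 := by
    change ‖p' + z‖ ^ 2 = _
    rw [hsq p' z hp' hz, hp'n, hy'pz, hsq p z hp hz]
  have hy1N : ∀ c ∈ C ⊓ D, N (y1 + c) = N (y + c) := by
    intro c hc
    rw [← hy'.2.2 c hc, hy'pz]
    change N (p' + z + c) = N (p + z + c)
    rw [add_assoc, add_assoc]
    exact hA.rot p' hp' p hp _ (C.add_mem hzC hc.1) hNp
  have hy1AB : y1 ∈ A ⊔ B := (A ⊔ B).add_mem (le_sup_left (a := A) hp') hzAB
  -- the second move
  let β : E d := B.starProjection y1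
  let w : E d := y1 - β
  have hβ : β ∈ B := Submodule.starProjection_apply_mem _ _
  have hw : w ∈ Bᗮ := Submodule.sub_starProjection_mem_orthogonal y1
  have hy1βw : y1 = β + w := by
    change y1 = β + (y1 - β)
    rw [add_sub_cancel]
  have hbβ : inner ℂ b β = inner ℂ b p' + ζ := by
    have h1 : inner ℂ b w = (0 : ℂ) := (Submodule.mem_orthogonal _ _).mp hw b hb
    have h2 : inner ℂ b y1 = inner ℂ b p' + ζ := inner_add_right _ _ _
    rw [hy1βw, inner_add_right, h1, add_zero] at h2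
    exact h2
  let β' : E d := β - (2 * ζ) • b
  have hβ' : β' ∈ B := B.sub_mem hβ (B.smul_mem _ hb)
  have hβ'n : ‖β'‖ = ‖β‖ := by
    have h1 : ‖β'‖ ^ 2 = ‖β‖ ^ 2 := by
      change ‖β - (2 * ζ) • b‖ ^ 2 = _
      rw [norm_sub_sq (𝕜 := ℂ), inner_smul_right, norm_smul, hbn, mul_one, ← inner_conj_symm, hbβ]
      have h2 : RCLike.re (2 * ζ * (starRingEnd ℂ) (inner ℂ b p' + ζ)) = 2 * ‖ζ‖ ^ 2 := by
        have h3 : 2 * ζ * (starRingEnd ℂ) (inner ℂ b p' + ζ) =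
            ((2 : ℝ) : ℂ) * (ζ * (starRingEnd ℂ) (inner ℂ b p')) + ((2 * ‖ζ‖ ^ 2 : ℝ) : ℂ) := by
          have h4 : ζ * (starRingEnd ℂ) ζ = ((‖ζ‖ ^ 2 : ℝ) : ℂ) := by
            rw [Complex.mul_conj, Complex.normSq_eq_norm_sq]
          rw [map_add]
          push_cast at h4 ⊢
          linear_combination 2 * h4
        rw [h3]
        change (((2 : ℝ) : ℂ) * (ζ * (starRingEnd ℂ) (inner ℂ b p')) +
          ((2 * ‖ζ‖ ^ 2 : ℝ) : ℂ)).re = _
        rw [Complex.add_re, Complex.re_ofReal_mul, hre, Complex.ofReal_re, mul_zero, zero_add]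
      rw [h2, norm_mul]
      norm_num
      ring
    exact (sq_eq_sq₀ (norm_nonneg _) (norm_nonneg _)).mp h1
  have hNβ : N β' = N β := SUM_const2 hN hinv hB _ _ hβ' hβ hβ'n
  have hwD : w ∈ D := by rw [hDo]; exact hw
  let y2 : E d := y1 - (2 * ζ) • b
  have hy2 : y2 = β' + w := by
    change y1 - (2 * ζ) • b = β - (2 * ζ) • b + w
    rw [hy1βw]
    abel
  have hy2O : y2 ∈ O := by
    refine ⟨(A ⊔ B).sub_mem hy1AB ((A ⊔ B).smul_mem _ (le_sup_right (b := B) hb)), ?_, ?_⟩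
    · rw [← hy'.2.1]
      have h1 : ‖y2‖ ^ 2 = ‖y'‖ ^ 2 := by
        rw [hy2, hsqB β' w hβ' hw, hβ'n, ← hsqB β w hβ hw, ← hy1βw, hy1n]
      exact (sq_eq_sq₀ (norm_nonneg _) (norm_nonneg _)).mp h1
    · intro c hc
      rw [← hy1N c hc, hy2, hy1βw, add_assoc, add_assoc]
      exact hB.rot β' hβ' β hβ _ (D.add_mem hwD hc.2) hNβ
  have h2 := hmax' y2 hy2O
  have h3 : A.starProjection y2 = p' - (2 * ζ) • q := by
    change A.starProjection (y1 - (2 * ζ) • b) = _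
    rw [map_sub, map_smul]
    congr 1
    exact hproj p' z hp' hz
  have h4 : ‖p' - (2 * ζ) • q‖ ^ 2 = ‖p‖ ^ 2 + 4 * ‖ζ‖ ^ 2 * ‖q‖ ^ 2 := by
    rw [norm_sub_sq (𝕜 := ℂ), inner_smul_right, hp'n, ← inner_conj_symm, ← hbA p' hp', norm_smul,
      norm_mul]
    have h5 : RCLike.re (2 * ζ * (starRingEnd ℂ) (inner ℂ b p')) = (0 : ℝ) := by
      have h6 : 2 * ζ * (starRingEnd ℂ) (inner ℂ b p') =
          ((2 : ℝ) : ℂ) * (ζ * (starRingEnd ℂ) (inner ℂ b p')) := by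
        push_cast
        ring
      rw [h6]
      change (((2 : ℝ) : ℂ) * (ζ * (starRingEnd ℂ) (inner ℂ b p'))).re = 0
      rw [Complex.re_ofReal_mul, hre, mul_zero]
    rw [h5]
    norm_num
    ring
  rw [h3] at h2
  have h5 : ‖p' - (2 * ζ) • q‖ ^ 2 ≤ ‖p‖ ^ 2 := by
    have h6 : ‖p' - (2 * ζ) • q‖ ≤ ‖p‖ := h2
    gcongr
  have h6 : 0 < 4 * ‖ζ‖ ^ 2 * ‖q‖ ^ 2 := by positivity
  linarith

theorem SUM_core (hN : IsNorm N)
    (hinv : ∀ g : E d →ₗ[ℂ] E d, (∀ x, N (g x) = N x) → ∀ x, ‖g x‖ = ‖x‖)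
    {A C B D : Submodule ℂ (E d)} (hA : Rot N ⊤ A C) (hB : Rot N ⊤ B D) (hBC : ¬ B ≤ C) :
    Rot N ⊤ (A ⊔ B) (C ⊓ D) := by
  have hCo := SUM_orth hN hinv hA
  have hDo := SUM_orth hN hinv hB
  have hF : C ⊓ D = (A ⊔ B)ᗮ := by rw [hCo, hDo, Submodule.inf_orthogonal]
  obtain ⟨a0, ha0, hne⟩ : ∃ a0 ∈ A, a0 ≠ 0 := by
    by_contra hc
    push Not at hc
    apply hBC
    have h1 : A = ⊥ := (Submodule.eq_bot_iff A).mpr hc
    rw [hCo, h1, Submodule.bot_orthogonal_eq_top]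
    exact le_top
  have hn0 : 0 < ‖a0‖ := norm_pos_iff.mpr hne
  have hconst : ∀ y ∈ A ⊔ B, N y = N a0 / ‖a0‖ * ‖y‖ := by
    intro y hy
    obtain ⟨y', hy', hn, hNy⟩ := SUM_move hN hinv hA hB hBC y hy
    have h1 := hNy 0 (Submodule.zero_mem _)
    rw [add_zero, add_zero] at h1
    have h2 := SUM_const2 hN hinv hA y' (((‖y'‖ / ‖a0‖ : ℝ) : ℂ) • a0) hy' (A.smul_mem _ ha0) (by
      rw [norm_smul, Complex.norm_real, Real.norm_of_nonneg (by positivity)]
      field_simp)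
    rw [← h1, h2, hN.smul, Complex.norm_real, Real.norm_of_nonneg (by positivity), hn]
    ring
  have hlam : 0 < N a0 / ‖a0‖ := div_pos (hN.pos a0 hne) hn0
  refine ⟨?_, ?_, ?_, ?_⟩
  · rw [hF, Submodule.inf_orthogonal_eq_bot]
  · rw [hF]
    exact Submodule.sup_orthogonal_of_hasOrthogonalProjection
  · intro a ha b hb
    rw [hconst _ (Submodule.add_mem _ ha hb), hconst _ (Submodule.sub_mem _ ha hb), hconst a ha,
      hconst b hb]
    have h1 := parallelogram_law_with_norm ℂ a b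
    linear_combination (N a0 / ‖a0‖) ^ 2 * h1
  · intro a ha a' ha' c hc h
    rw [hconst a ha, hconst a' ha'] at h
    have h1 : ‖a‖ = ‖a'‖ := mul_left_cancel₀ hlam.ne' h
    obtain ⟨y, hy, hyn, hyN⟩ := SUM_move hN hinv hA hB hBC a ha
    obtain ⟨y', hy', hyn', hyN'⟩ := SUM_move hN hinv hA hB hBC a' ha'
    rw [← hyN c hc, ← hyN' c hc]
    refine hA.rot y hy y' hy' c hc.1 (SUM_const2 hN hinv hA _ _ hy hy' ?_)
    rw [hyn, hyn', h1]

end

theorem st_SUM (hINV : ST_INV) : ST_SUM := by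
  intro m N hN H A C B D hA hB hBC
  have hNH : IsNorm (fun x : H => N (x : E m)) :=
    ⟨fun x hx => hN.pos x fun h => hx (Subtype.ext h), fun c x => hN.smul c x,
      fun x y => hN.add x y⟩
  obtain ⟨T, hT⟩ := hINV H (fun x : H => N (x : E m)) hNH
  let J : E (Module.finrank ℂ H) →ₗ[ℂ] E m := H.subtype ∘ₗ T.symm.toLinearMap
  have hJ : Function.Injective J := fun x y h => T.symm.injective (Subtype.ext h)
  have hJH : ∀ x ∈ H, ∃ y, J y = x := fun x hx => ⟨T ⟨x, hx⟩, by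
    change ((T.symm (T ⟨x, hx⟩) : H) : E m) = x
    rw [T.symm_apply_apply]⟩
  have hJr : ∀ y, J y ∈ H := fun y => (T.symm y).2
  have hN' : IsNorm (fun y => N (J y)) :=
    ⟨fun x hx => hN.pos _ fun h => hx (hJ (by rw [h, map_zero])), fun c x => by
      rw [map_smul]; exact hN.smul c _, fun x y => by rw [map_add]; exact hN.add _ _⟩
  have hinv : ∀ g : E (Module.finrank ℂ H) →ₗ[ℂ] E (Module.finrank ℂ H),
      (∀ x, N (J (g x)) = N (J x)) → ∀ x, ‖g x‖ = ‖x‖ := by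
    intro g hg x
    have h1 := hT (T.symm.toLinearMap ∘ₗ g ∘ₗ T.toLinearMap) (fun v => by
      have h2 := hg (T v)
      change N (J (g (T v))) = N (v : E m)
      rw [h2]
      change N ((T.symm (T v) : H) : E m) = N (v : E m)
      rw [T.symm_apply_apply]) (T.symm x)
    change ‖T (T.symm (g (T (T.symm x))))‖ = ‖T (T.symm x)‖ at h1
    rw [T.apply_symm_apply, T.apply_symm_apply] at h1
    exact h1
  have back : ∀ A C : Submodule ℂ (E m), Rot N H A C →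
      Rot (fun y => N (J y)) ⊤ (A.comap J) (C.comap J) := by
    intro A C hA
    have hAH : A ≤ H := by rw [← hA.sup]; exact le_sup_left
    have hCH : C ≤ H := by rw [← hA.sup]; exact le_sup_right
    refine ⟨?_, ?_, ?_, ?_⟩
    · rw [← Submodule.comap_inf, hA.inf]
      exact LinearMap.ker_eq_bot.mpr hJ
    · rw [eq_top_iff]
      intro x _
      have h1 : J x ∈ A ⊔ C := by rw [hA.sup]; exact hJr x
      obtain ⟨a, ha, c, hc, hac⟩ := Submodule.mem_sup.mp h1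
      obtain ⟨a', rfl⟩ := hJH a (hAH ha)
      obtain ⟨c', rfl⟩ := hJH c (hCH hc)
      rw [← map_add] at hac
      rw [← hJ hac]
      exact Submodule.add_mem_sup ha hc
    · intro a ha b hb
      rw [map_add, map_sub]
      exact hA.hilb _ ha _ hb
    · intro a ha a' ha' c hc h
      rw [map_add, map_add]
      exact hA.rot _ ha _ ha' _ hc h
  have hAH : A ≤ H := by rw [← hA.sup]; exact le_sup_left
  have hBH : B ≤ H := by rw [← hB.sup]; exact le_sup_left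
  have hCH : C ≤ H := by rw [← hA.sup]; exact le_sup_right
  have hcore := SUM_core hN' hinv (back A C hA) (back B D hB) (by
    intro h
    apply hBC
    intro b hb
    obtain ⟨b', rfl⟩ := hJH b (hBH hb)
    exact h hb)
  -- forward
  have hmapA : ∀ A : Submodule ℂ (E m), A ≤ H → (A.comap J).map J = A := by
    intro A hAH
    ext x
    constructor
    · rintro ⟨y, hy, rfl⟩
      exact hy
    · intro hx
      obtain ⟨y, rfl⟩ := hJH x (hAH hx)
      exact ⟨y, hx, rfl⟩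
  have hsup : (A.comap J ⊔ B.comap J).map J = A ⊔ B := by
    rw [Submodule.map_sup, hmapA A hAH, hmapA B hBH]
  refine ⟨(C.comap J ⊓ D.comap J).map J, ?_, ?_, ?_, ?_⟩
  · rw [← hsup, ← Submodule.map_inf J hJ, hcore.inf, Submodule.map_bot]
  · rw [← hsup, ← Submodule.map_sup, hcore.sup, Submodule.map_top]
    ext x
    constructor
    · rintro ⟨y, rfl⟩
      exact hJr y
    · intro hx
      obtain ⟨y, rfl⟩ := hJH x hx
      exact ⟨y, rfl⟩
  · intro a ha b hb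
    rw [← hsup] at ha hb
    obtain ⟨a', ha', rfl⟩ := ha
    obtain ⟨b', hb', rfl⟩ := hb
    have := hcore.hilb a' ha' b' hb'
    rw [map_add, map_sub] at this
    exact this
  · intro a ha a' ha' c hc h
    rw [← hsup] at ha ha'
    obtain ⟨x, hx, rfl⟩ := ha
    obtain ⟨x', hx', rfl⟩ := ha'
    obtain ⟨u, hu, rfl⟩ := hc
    have := hcore.rot x hx x' hx' u hu h
    rw [map_add, map_add] at this
    exact this

end Pool.Agent.Helper83.CB
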